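import Mathlib

set_option autoImplicit false

/-! Module Ab (about 90 lines, Mathlib only). Counting by the fibres of a surgery.

PROOF. Induction on `J` (`Finset.induction_on`), as `hit_count` in PM/Cnt.lean. Let
`S = {t ∈ T | ∀ k ∈ J, ¬ H k t}` and `k0 ∉ J`. For `t ∈ S`: `F k0 t ∈ T`, `¬ H k (F k0 t)` for `k ∈ J`
(`h2`), and `H k0 (F k0 t)`. So `F k0` maps `S` to `S1 = {t ∈ S | H k0 t}` with fibres of at most `D`
elements (`h3`): `|S| ≤ D |S1|` (`Finset.card_le_mul_card_image_of_maps_to` after `Set.Finite.toFinset`), and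
`|{t ∈ S | ¬ H k0 t}| = |S| - |S1| ≤ (1 - 1/D) |S|`. -/

namespace H30.PW

open Classical in
private theorem ab_fin {α ι : Type*} (T : Finset α) (J : Finset ι)
    (H : ι → α → Prop) (F : ι → α → α) (D : ℕ) (hD : 0 < D)
    (hF : ∀ k ∈ J, ∀ t ∈ T, F k t ∈ T) (h1 : ∀ k ∈ J, ∀ t ∈ T, H k (F k t))
    (h2 : ∀ k ∈ J, ∀ k' ∈ J, k ≠ k' → ∀ t ∈ T, H k' (F k t) → H k' t)
    (h3 : ∀ k ∈ J, ∀ u, (T.filter (fun t => F k t = u)).card ≤ D) :
    (((T.filter (fun t => ∀ k ∈ J, ¬ H k t)).card : ℕ) : ℝ) ≤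
      (1 - 1 / (D : ℝ)) ^ J.card * (T.card : ℝ) := by
  induction J using Finset.induction_on with
  | empty => simp
  | insert k0 J hk0 ih =>
    have hmem : ∀ k ∈ J, k ∈ insert k0 J := fun k hk => Finset.mem_insert_of_mem hk
    have ih' := ih (fun k hk => hF k (hmem k hk)) (fun k hk => h1 k (hmem k hk))
      (fun k hk k' hk' => h2 k (hmem k hk) k' (hmem k' hk')) (fun k hk => h3 k (hmem k hk))
    set S : Finset α := T.filter (fun t => ∀ k ∈ J, ¬ H k t) with hS
    have hk00 : k0 ∈ insert k0 J := Finset.mem_insert_self k0 J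
    have hsplit : (S.filter (fun t => H k0 t)).card + (S.filter (fun t => ¬ H k0 t)).card
        = S.card := Finset.card_filter_add_card_filter_not (fun t => H k0 t)
    have hS0 : T.filter (fun t => ∀ k ∈ insert k0 J, ¬ H k t) =
        S.filter (fun t => ¬ H k0 t) := by
      ext t
      simp only [hS, Finset.mem_filter, Finset.mem_insert, forall_eq_or_imp]
      tauto
    have hle : S.card ≤ D * (S.filter (fun t => H k0 t)).card := by
      refine Finset.card_le_mul_card_image_of_maps_to (f := F k0) ?_ D ?_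
      · intro t ht
        have ht' := Finset.mem_filter.1 ht
        rw [Finset.mem_filter]
        refine ⟨Finset.mem_filter.2 ⟨hF k0 hk00 t ht'.1, ?_⟩, h1 k0 hk00 t ht'.1⟩
        intro k hk hH
        have hne : k0 ≠ k := fun h => hk0 (h ▸ hk)
        exact ht'.2 k hk (h2 k0 hk00 k (hmem k hk) hne t ht'.1 hH)
      · intro u _
        refine le_trans (Finset.card_le_card ?_) (h3 k0 hk00 u)
        intro t ht
        have ht' := Finset.mem_filter.1 ht
        exact Finset.mem_filter.2 ⟨(Finset.mem_filter.1 ht'.1).1, ht'.2⟩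
    rw [hS0, Finset.card_insert_of_notMem hk0, pow_succ]
    have hDR : (0 : ℝ) < D := by exact_mod_cast hD
    have e1 : (((S.filter (fun t => H k0 t)).card : ℕ) : ℝ) +
        (((S.filter (fun t => ¬ H k0 t)).card : ℕ) : ℝ) = (S.card : ℝ) := by
      exact_mod_cast hsplit
    have e2 : (S.card : ℝ) ≤ D * (((S.filter (fun t => H k0 t)).card : ℕ) : ℝ) := by
      exact_mod_cast hle
    have e3 : (S.card : ℝ) / D ≤ (((S.filter (fun t => H k0 t)).card : ℕ) : ℝ) := by
      rw [div_le_iff₀ hDR]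
      linarith
    have e4 : (((S.filter (fun t => ¬ H k0 t)).card : ℕ) : ℝ) ≤
        (1 - 1 / (D : ℝ)) * (S.card : ℝ) := by
      have : (1 - 1 / (D : ℝ)) * (S.card : ℝ) = (S.card : ℝ) - (S.card : ℝ) / D := by ring
      rw [this]
      linarith
    have hnn : (0 : ℝ) ≤ 1 - 1 / (D : ℝ) := by
      have : (1 : ℝ) ≤ D := by exact_mod_cast hD
      have h5 : 1 / (D : ℝ) ≤ 1 := by
        rw [div_le_one hDR]
        exact this
      linarith
    calc (((S.filter (fun t => ¬ H k0 t)).card : ℕ) : ℝ)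
        ≤ (1 - 1 / (D : ℝ)) * (S.card : ℝ) := e4
      _ ≤ (1 - 1 / (D : ℝ)) * ((1 - 1 / (D : ℝ)) ^ J.card * (T.card : ℝ)) :=
          mul_le_mul_of_nonneg_left ih' hnn
      _ = (1 - 1 / (D : ℝ)) ^ J.card * (1 - 1 / (D : ℝ)) * (T.card : ℝ) := by ring

theorem abs_count {α ι : Type*} [DecidableEq ι] (T : Set α) (hT : T.Finite) (J : Finset ι)
    (H : ι → α → Prop) (F : ι → α → α) (D : ℕ) (hD : 0 < D)
    (hF : ∀ k ∈ J, ∀ t ∈ T, F k t ∈ T) (h1 : ∀ k ∈ J, ∀ t ∈ T, H k (F k t))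
    (h2 : ∀ k ∈ J, ∀ k' ∈ J, k ≠ k' → ∀ t ∈ T, H k' (F k t) → H k' t)
    (h3 : ∀ k ∈ J, ∀ u, {t | t ∈ T ∧ F k t = u}.ncard ≤ D) :
    (({t | t ∈ T ∧ ∀ k ∈ J, ¬ H k t}.ncard : ℕ) : ℝ) ≤
      (1 - 1 / (D : ℝ)) ^ J.card * ((T.ncard : ℕ) : ℝ) := by
  classical
  have hcoe : ∀ P : α → Prop, {t | t ∈ T ∧ P t}.ncard = (hT.toFinset.filter P).card := by
    intro P
    rw [← Set.ncard_coe_finset]
    congr 1
    ext t
    simp
  have hTc : T.ncard = hT.toFinset.card := Set.ncard_eq_toFinset_card T hT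
  rw [hTc]
  have hcoe' : {t | t ∈ T ∧ ∀ k ∈ J, ¬ H k t}.ncard ≤
      (@Finset.filter α (fun t => ∀ k ∈ J, ¬ H k t)
        (fun a => Finset.decidableDforallFinset) hT.toFinset).card := by
    rw [← Set.ncard_coe_finset]
    refine le_of_eq (congrArg Set.ncard ?_)
    ext t
    simp
  refine le_trans (Nat.cast_le.2 hcoe') (ab_fin hT.toFinset J H F D hD ?_ ?_ ?_ ?_)
  · intro k hk t ht
    rw [Set.Finite.mem_toFinset] at ht ⊢
    exact hF k hk t ht
  · intro k hk t ht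
    rw [Set.Finite.mem_toFinset] at ht
    exact h1 k hk t ht
  · intro k hk k' hk' hne t ht
    rw [Set.Finite.mem_toFinset] at ht
    exact h2 k hk k' hk' hne t ht
  · intro k hk u
    rw [← hcoe]
    exact h3 k hk u

end H30.PW
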