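import Pool.Agent.H30.PW.Defs

set_option autoImplicit false

/-! Module Cf (about 60 lines, essentially Mathlib only). Counting conflicts.

PROOF of `conf_count`: the set is contained in the union of three sets of naturals: `|q - q'| < B` (at
most `2 B` values), `q' ≤ q + B1 + σ x < q' + B` (at most `B` values) and `q ≤ q' + B1 + σ y < q + B` (at most
`B` values). (`Set.ncard_union_le`, `Set.ncard_le_ncard`; a set of naturals whose casts lie in
`Finset.Ico c (c + B)` has at most `B` elements, see `reqV_int` in PM/ReqV.lean.) -/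

namespace H30.PW

open H61.PS H30.PM

variable {n : ℕ}

/-- The modification of the word for `x` at the block `q` is in conflict with the one for `y` at the
block `q'`. -/
def Conf (B B1 : ℕ) (σ : OT n → ℤ) (x : OT n) (q : ℕ) (y : OT n) (q' : ℕ) : Prop :=
  (q < q' + B ∧ q' < q + B) ∨
  ((q' : ℤ) ≤ q + B1 + σ x ∧ (q : ℤ) + B1 + σ x < q' + B) ∨
  ((q : ℤ) ≤ q' + B1 + σ y ∧ (q' : ℤ) + B1 + σ y < q + B)

theorem conf_symm {B B1 : ℕ} {σ : OT n → ℤ} {x : OT n} {q : ℕ} {y : OT n} {q' : ℕ}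
    (h : Conf B B1 σ x q y q') : Conf B B1 σ y q' x q := by
  rcases h with h | h | h
  · exact Or.inl ⟨h.2, h.1⟩
  · exact Or.inr (Or.inr h)
  · exact Or.inr (Or.inl h)

/-- Natural numbers whose casts lie in an integer interval of length `B`. -/
private theorem cast_window (c : ℤ) (B : ℕ) :
    {q : ℕ | c ≤ (q : ℤ) ∧ (q : ℤ) < c + B}.ncard ≤ B ∧
      {q : ℕ | c ≤ (q : ℤ) ∧ (q : ℤ) < c + B}.Finite := by
  have hinj : Set.InjOn (fun q : ℕ => (q : ℤ)) {q : ℕ | c ≤ (q : ℤ) ∧ (q : ℤ) < c + B} := by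
    intro a _ b _ hab
    exact Int.ofNat_inj.mp hab
  have hmaps : Set.MapsTo (fun q : ℕ => (q : ℤ)) {q : ℕ | c ≤ (q : ℤ) ∧ (q : ℤ) < c + B}
      (Finset.Ico c (c + B) : Set ℤ) := by
    intro a ha
    simp only [Finset.coe_Ico, Set.mem_Ico]
    exact ha
  constructor
  · have h1 := Set.ncard_le_ncard_of_injOn (fun q : ℕ => (q : ℤ)) hmaps hinj
      (Finset.finite_toSet _)
    rw [Set.ncard_coe_finset, Int.card_Ico] at h1
    omega
  · exact Set.Finite.of_injOn hmaps hinj (Finset.finite_toSet _)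

theorem conf_count (B B1 : ℕ) (σ : OT n → ℤ) (x y : OT n) (q' : ℕ) :
    {q : ℕ | Conf B B1 σ x q y q'}.ncard ≤ 4 * B ∧ {q : ℕ | Conf B B1 σ x q y q'}.Finite := by
  obtain ⟨n1, f1⟩ := cast_window ((q' : ℤ) - B) (2 * B)
  obtain ⟨n2, f2⟩ := cast_window ((q' : ℤ) - (B1 + σ x)) B
  obtain ⟨n3, f3⟩ := cast_window ((q' : ℤ) + B1 + σ y - B + 1) B
  set A1 := {q : ℕ | (q' : ℤ) - B ≤ (q : ℤ) ∧ (q : ℤ) < (q' : ℤ) - B + ((2 * B : ℕ) : ℤ)}
  set A2 := {q : ℕ | (q' : ℤ) - (B1 + σ x) ≤ (q : ℤ) ∧ (q : ℤ) < (q' : ℤ) - (B1 + σ x) + B}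
  set A3 := {q : ℕ | (q' : ℤ) + B1 + σ y - B + 1 ≤ (q : ℤ) ∧
    (q : ℤ) < (q' : ℤ) + B1 + σ y - B + 1 + B}
  have hsub : {q : ℕ | Conf B B1 σ x q y q'} ⊆ A1 ∪ A2 ∪ A3 := by
    intro q hq
    rcases hq with h | h | h
    · refine Or.inl (Or.inl ?_)
      refine ⟨?_, ?_⟩ <;> push_cast <;> omega
    · refine Or.inl (Or.inr ?_)
      refine ⟨?_, ?_⟩ <;> omega
    · refine Or.inr ?_
      refine ⟨?_, ?_⟩ <;> omega
  have hfin : (A1 ∪ A2 ∪ A3).Finite := (f1.union f2).union f3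
  refine ⟨?_, hfin.subset hsub⟩
  calc {q : ℕ | Conf B B1 σ x q y q'}.ncard ≤ (A1 ∪ A2 ∪ A3).ncard :=
        Set.ncard_le_ncard hsub hfin
    _ ≤ (A1 ∪ A2).ncard + A3.ncard := Set.ncard_union_le _ _
    _ ≤ (A1.ncard + A2.ncard) + A3.ncard := by
        have := Set.ncard_union_le A1 A2
        omega
    _ ≤ 4 * B := by omega

end H30.PW
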