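import Pool.Agent.H30.PM.Defs
import Pool.Agent.H30.PM.Alg
import Pool.Agent.H30.PM.Dst
import Pool.Agent.H30.PM.Spl

set_option autoImplicit false

/-! Local rearrangements of Pisot inflation rules: common definitions. The tiling definitions are
those of `Pool.Agent.H61.PS.Defs`, the structure data those of `Pool.Agent.H30.PM.Defs`. -/

namespace H30.PW

open H61.PS H30.PM

variable {n : ℕ}

/-- Windows: `w j` is a set of starts of pairwise disjoint windows `[b, b + W)` of consecutive
positions of the word `s j`. -/
structure Windows (s : Subst n) (W : ℕ) (w : Fin n → Finset ℕ) : Prop where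
  inside : ∀ j, ∀ b ∈ w j, b + W ≤ (s j).length
  disjoint : ∀ j, ∀ b ∈ w j, ∀ b' ∈ w j, b ≠ b' → b + W ≤ b' ∨ b' + W ≤ b

/-- The rules obtained from `s` by rearranging the letters inside the windows `[b, b + W)`,
`b ∈ w j`, of the words `s j`: the letters outside the windows are the letters of `s`, and every
window contains every letter as often as in `s`. -/
def Rearr (s : Subst n) (W : ℕ) (w : Fin n → Finset ℕ) : Set (Subst n) :=
  {t | ∀ j, (t j).length = (s j).length ∧
    (∀ q, (∀ b ∈ w j, q < b ∨ b + W ≤ q) → (t j)[q]? = (s j)[q]?) ∧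
    ∀ b ∈ w j, (((t j).drop b).take W).Perm (((s j).drop b).take W)}

/-- The positions `p` of the word `y.j`, among the ones in `P y.j`, which after inflation of the
overlap `y` face the word `y.i`. -/
def srv (M : Matrix (Fin n) (Fin n) ℕ) (P : Fin n → Finset ℕ) (y : OT n) : Finset ℕ :=
  (P y.j).filter fun p : ℕ => 0 ≤ (p : ℤ) + tau (act M y.v) ∧
    (p : ℤ) + tau (act M y.v) < (ml M y.i : ℤ)

/-- In the inflated overlap `y` the position `p` of the word `y.i` and the position `q` of the
word `y.j` carry the same letter at the same place. -/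
def HitP (M : Matrix (Fin n) (Fin n) ℕ) (t : Subst n) (y : OT n) (p q : ℕ) : Prop :=
  ∃ a, (t y.i)[p]? = some a ∧ (t y.j)[q]? = some a ∧
    act M y.v + cont ((t y.j).take q) = cont ((t y.i).take p)

/-- A demand on the word `j`: pass through the vertex `z` at the level `q + B1` and continue with
the letter `a`; only the block at `q` may be changed. -/
structure Dem (n : ℕ) where
  j : Fin n
  q : ℕ
  z : Fin n → ℤ
  a : Fin n

end H30.PW
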