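import Pool.Agent.H30.PM.Rer
import Pool.Agent.H30.PW.Defs

set_option autoImplicit false

/-! Module One (about 90 lines). Satisfying finitely many demands in disjoint blocks.

PROOF. Induction on the list `Ds`: first satisfy the tail, giving `t`, then the head `R` with
`reroute_one` (PM/Rer.lean), giving `t'` with `Same (2 B1 + 1) R.j R.q t t'`. The demands `R'` of the tail
remain satisfied: the blocks of `R` and `R'` are disjoint, so the position `R'.q + B1` is outside the
block of `R` (`Same.ltr, Same.con`). Positions outside all blocks: `Same.ltr`, and `Same.con` needs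
`q0 ≤ R.q ∨ R.q + B ≤ q0`. -/

namespace H30.PW

open H61.PS H30.PM

variable {n : ℕ}

theorem all_one {r : Fin n → ℝ} (hr : ∃ i, r i ≠ 0) {C : ℝ} {B1 : ℕ} (hP : PathP r C B1)
    {M : Matrix (Fin n) (Fin n) ℕ} {s : Subst n} (hs : s ∈ Bal r M C) (Ds : List (Dem n))
    (h1 : ∀ R ∈ Ds, R.q + (2 * B1 + 1) ≤ ml M R.j) (h2 : ∀ R ∈ Ds, tau R.z = R.q + B1)
    (h3 : ∀ R ∈ Ds, dst r R.z ≤ C - 1)
    (h4 : Ds.Pairwise fun R R' => R.j = R'.j →
      R.q + (2 * B1 + 1) ≤ R'.q ∨ R'.q + (2 * B1 + 1) ≤ R.q) :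
    ∃ t ∈ Bal r M C,
      (∀ R ∈ Ds, cont ((t R.j).take (R.q + B1)) = R.z ∧ (t R.j)[R.q + B1]? = some R.a) ∧
      (∀ j q0, (∀ R ∈ Ds, R.j = j → q0 < R.q ∨ R.q + (2 * B1 + 1) ≤ q0) →
        (t j)[q0]? = (s j)[q0]? ∧ cont ((t j).take q0) = cont ((s j).take q0)) := by
  induction Ds with
  | nil => exact ⟨s, hs, fun R hR => absurd hR (List.not_mem_nil), fun j q0 _ => ⟨rfl, rfl⟩⟩
  | cons R Ds ih =>
    rw [List.pairwise_cons] at h4
    obtain ⟨t, ht, hD, hO⟩ := ih (fun R' h => h1 R' (List.mem_cons_of_mem _ h))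
      (fun R' h => h2 R' (List.mem_cons_of_mem _ h))
      (fun R' h => h3 R' (List.mem_cons_of_mem _ h)) h4.2
    have hR : R ∈ R :: Ds := List.mem_cons_self
    obtain ⟨t', ht', hS, hz, ha⟩ := reroute_one hr hP ht R.a R.j R.q (h1 R hR) R.z (h2 R hR)
      (h3 R hR)
    refine ⟨t', ht', ?_, ?_⟩
    · intro R' hR'
      rcases List.mem_cons.1 hR' with h5 | hR'
      · subst h5
        exact ⟨hz, ha⟩
      · obtain ⟨e1, e2⟩ := hD R' hR'
        have hdis := h4.1 R' hR'
        constructor
        · rw [hS.con R'.j (R'.q + B1) (fun h => ?_), e1]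
          rcases hdis h.symm with h5 | h5
          · right; omega
          · left; omega
        · rw [hS.ltr R'.j (R'.q + B1) (fun h => ?_), e2]
          rcases hdis h.symm with h5 | h5
          · right; omega
          · left; omega
    · intro j q0 hq
      obtain ⟨e1, e2⟩ := hO j q0 (fun R' h => hq R' (List.mem_cons_of_mem _ h))
      constructor
      · rw [hS.ltr j q0 (fun h => hq R hR h.symm), e1]
      · rw [hS.con j q0 (fun h => ?_), e2]
        rcases hq R hR h.symm with h5 | h5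
        · left; omega
        · right; exact h5

end H30.PW
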