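import Pool.Agent.H30.PM.Desc
import Pool.Agent.H30.PW.Defs

set_option autoImplicit false

/-! Module Gw (about 70 lines). Descent into the window, with several steps inside the window.

PROOF of `child_N`: `y.v = act M x.v + cont .. - cont ..`; `F.contr` with `θ = 1/2`, `F.add`, `F.neg`.
PROOF of `good_of_desc`: word for word the proof of `H30.PM.good_of_win` (Desc.lean), where in the case
of the window the hypothesis gives the chain directly.
PROOF of `child_of_hitP`: as `H30.PM.child_of_hit` (Desc.lean). -/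

namespace H30.PW

open H61.PS H30.PM

variable {n : ℕ}

theorem child_N {l : Fin n → ℝ} {N : (Fin n → ℤ) → ℝ} {A : ℝ} {r : Fin n → ℝ}
    (F : Fr l N A r) {M : Matrix (Fin n) (Fin n) ℕ} {L : ℝ} (hP : PisotInflation l M L)
    (hL : 1 < L)
    (hθ : ∀ z : ℂ, (M.map (Nat.cast : ℕ → ℂ)).charpoly.IsRoot z → z ≠ (L : ℂ) → ‖z‖ ≤ 1 / 2)
    {t : Subst n} (D : ℝ) (hD : ∀ j p, N (cont ((t j).take p)) ≤ D) {x y : OT n}
    (h : Child l M t x y) : N y.v ≤ N x.v / 2 + 2 * D := by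
  obtain ⟨-, p, q, hp, hq, -, -, hv⟩ := h
  rw [hv]
  have h1 := F.contr M L hP hL (1 / 2) hθ x.v
  have h2 := F.add (act M x.v + cont ((t x.j).take q)) (-cont ((t x.i).take p))
  have h3 := F.add (act M x.v) (cont ((t x.j).take q))
  rw [F.neg, ← sub_eq_add_neg] at h2
  have h4 := hD x.j q
  have h5 := hD x.i p
  linarith

theorem good_of_desc {l : Fin n → ℝ} {N : (Fin n → ℤ) → ℝ} {A : ℝ} {r : Fin n → ℝ}
    (F : Fr l N A r) (hl : ∀ i, 0 < l i) {M : Matrix (Fin n) (Fin n) ℕ} {L : ℝ}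
    (hP : PisotInflation l M L) (hL : 1 < L)
    (hθ : ∀ z : ℂ, (M.map (Nat.cast : ℕ → ℂ)).charpoly.IsRoot z → z ≠ (L : ℂ) → ‖z‖ ≤ 1 / 2)
    {t : Subst n} (ht : HasMatrix t M) (D : ℝ)
    (hD : ∀ j p, N (cont ((t j).take p)) ≤ D)
    (hw : ∀ x ∈ Win l N (4 * D + 1), ∃ a : Fin n, Relation.ReflTransGen (Child l M t) x ⟨a, a, 0⟩) :
    Good l M t := by
  have hstep : ∀ x : OT n, IsOv l x → ∃ y, Child l M t x y ∧ N y.v ≤ N x.v / 2 + 2 * D := by
    intro x hx
    have hL0 : 0 < L := by linarith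
    obtain ⟨p, q, hp, hq, -, -, -, -, hc⟩ := child_of_point l hl M L hP t ht x
      (max 0 (L * len l x.v)) (le_max_left _ _)
      (max_lt (mul_pos hL0 (hl _)) (mul_lt_mul_of_pos_left hx.2 hL0)) (le_max_right _ _)
      (max_lt (by nlinarith [hx.1]) (by nlinarith [hl x.j]))
    exact ⟨_, hc, child_N F hP hL hθ D hD hc⟩
  have key : ∀ m : ℕ, ∀ x : OT n, IsOv l x → N x.v ≤ 2 ^ m + 4 * D →
      ∃ a : Fin n, Relation.ReflTransGen (Child l M t) x ⟨a, a, 0⟩ := by
    intro m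
    induction m with
    | zero =>
      intro x hx hN
      rw [pow_zero] at hN
      exact hw x ⟨hx, by linarith⟩
    | succ m ih =>
      intro x hx hN
      obtain ⟨y, hy, hNy⟩ := hstep x hx
      rw [pow_succ] at hN
      obtain ⟨a, ha⟩ := ih y hy.1 (by linarith)
      exact ⟨a, Relation.ReflTransGen.head hy ha⟩
  intro x hx
  obtain ⟨m, hm⟩ := pow_unbounded_of_one_lt (N x.v - 4 * D) (one_lt_two (α := ℝ))
  exact key m x hx (by linarith)

theorem child_of_hitP {l : Fin n → ℝ} (hl : ∀ i, 0 < l i) {M : Matrix (Fin n) (Fin n) ℕ}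
    {t : Subst n} {y : OT n} {p q : ℕ} (h : HitP M t y p q) :
    ∃ a, Child l M t y ⟨a, a, 0⟩ := by
  obtain ⟨a, h2, h4, h5⟩ := h
  rw [List.getElem?_eq_some_iff] at h2 h4
  obtain ⟨hp, h2⟩ := h2
  obtain ⟨hq, h4⟩ := h4
  refine ⟨a, ?_, p, q, hp, hq, h2, h4, ?_⟩
  · unfold IsOv
    simp only [len_zero]
    exact ⟨neg_lt_zero.2 (hl a), hl a⟩
  · simp only
    rw [h5]
    abel

end H30.PW
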