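import Pool.Agent.H30.PM.Long
import Pool.Agent.H30.PW.Defs

set_option autoImplicit false

/-! Module OvG (about 130 lines). Overlap of the levels implies overlap of the tiles.

PROOF of `pos_gap`: let `lm = min_i l i > 0`. The vectors `u` with `N u ≤ K` and `0 < len l u < lm` are
finitely many: `⟨i0, i0, u⟩` with `l i0 = lm` is in `Win l N K`, which is finite (`win_finite`). Take the
minimum of `lm` and of the finitely many values `len l u` (`Set.Finite`, `Finset.exists_min_image`, or
induction).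
PROOF of `ov_of_lev`: let `δ` be the gap for `K' = |K| + A n`, `S = ∑ r > 0`, `E = n (A K')`,
`L1 = (E + 1) / (S δ)`. Suppose `l y.i ≤ len l y.v`. Let `u = y.v - e_i` (`e_i = Pi.single y.i 1`), so
`len l u ≥ 0` (`len_sub, len_single`) and `N u ≤ K'` (`F.add, F.neg`, `N_le_dst, dst_single`). If
`len l u = 0` then `u = 0` by `hlin` (integer coefficients; see `WinF.lean` or `Long.lean` for the same
step), so `y.v = e_i` and `tau (act M y.v) = ml M y.i` (`tau_act_single`), contradiction. Otherwise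
`len l u ≥ δ`, and by `tau_close F (act M u)`, `len_act`, `N (act M u) ≤ N u` (`F.contr` with `θ = 1`)
`tau (act M u) ≥ S L δ - E > 0`, so `tau (act M y.v) > ml M y.i` (`act_add, tau_add`), contradiction.
Suppose `len l y.v ≤ - l y.j`: the same with `u = -(y.v + e_j)`. -/

namespace H30.PW

open H61.PS H30.PM

variable {n : ℕ}

private theorem ovg_min {α : Type*} {S : Set α} (hS : S.Finite) (f : α → ℝ)
    (hf : ∀ x ∈ S, 0 < f x) : ∃ g : ℝ, 0 < g ∧ ∀ x ∈ S, g ≤ f x := by
  rcases S.eq_empty_or_nonempty with h | h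
  · refine ⟨1, zero_lt_one, fun x hx => ?_⟩
    rw [h] at hx
    exact absurd hx (Set.notMem_empty x)
  · obtain ⟨a, ha, hmin⟩ := Set.exists_min_image S f hS h
    exact ⟨f a, hf a ha, hmin⟩

theorem pos_gap {l : Fin n → ℝ} {N : (Fin n → ℤ) → ℝ} {A : ℝ} {r : Fin n → ℝ} (hn : 0 < n)
    (F : Fr l N A r) (hl : ∀ i, 0 < l i) (K : ℝ) :
    ∃ δ : ℝ, 0 < δ ∧ ∀ u : Fin n → ℤ, N u ≤ K → 0 < len l u → δ ≤ len l u := by
  have i0 : Fin n := ⟨0, hn⟩
  have hT : {x : OT n | x ∈ Win l N K ∧ 0 < len l x.v}.Finite :=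
    (win_finite F hl K).subset fun x hx => hx.1
  obtain ⟨g, hg, h⟩ := ovg_min hT (fun x => len l x.v) fun x hx => hx.2
  refine ⟨min g (l i0), lt_min hg (hl i0), fun u hu hpos => ?_⟩
  rcases lt_or_ge (len l u) (l i0) with hlt | hge
  · have hmem : (⟨i0, i0, u⟩ : OT n) ∈ {x : OT n | x ∈ Win l N K ∧ 0 < len l x.v} := by
      refine ⟨⟨⟨?_, hlt⟩, hu⟩, hpos⟩
      exact lt_trans (neg_lt_zero.2 (hl i0)) hpos
    exact (min_le_left _ _).trans (h _ hmem)
  · exact (min_le_right _ _).trans hge

theorem ov_of_lev {l : Fin n → ℝ} {N : (Fin n → ℤ) → ℝ} {A : ℝ} {r : Fin n → ℝ} (hn : 0 < n)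
    (F : Fr l N A r) (hl : ∀ i, 0 < l i) (hlin : LinearIndependent ℚ l) (K : ℝ) :
    ∃ L1 : ℝ, ∀ (M : Matrix (Fin n) (Fin n) ℕ) (L : ℝ),
      PisotInflation l M L → 1 < L → L1 ≤ L → ∀ y : OT n, N y.v ≤ K →
        -(ml M y.j : ℤ) < tau (act M y.v) → tau (act M y.v) < (ml M y.i : ℤ) → IsOv l y := by
  have : Nonempty (Fin n) := ⟨⟨0, hn⟩⟩
  have hA : 0 < A := lt_of_lt_of_le one_pos F.A1
  have hS : 0 < ∑ i, r i := Finset.sum_pos (fun i _ => F.rpos i) Finset.univ_nonempty
  have hn0 : (0 : ℝ) ≤ n := Nat.cast_nonneg n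
  obtain ⟨δ, hδ, hgap⟩ := pos_gap hn F hl (|K| + A * n)
  set S : ℝ := ∑ i, r i with hSdef
  have hK' : 0 ≤ |K| + A * n := add_nonneg (abs_nonneg K) (mul_nonneg hA.le hn0)
  have hSδ : 0 < S * δ := mul_pos hS hδ
  have hsing : ∀ a : Fin n, N (Pi.single a 1) ≤ A * n := by
    intro a
    refine (N_le_dst F hn _).trans (mul_le_mul_of_nonneg_left ?_ hA.le)
    have h1 := mul_le_mul_of_nonneg_left (dst_single r a) hn0
    rwa [mul_one] at h1
  refine ⟨(n * (A * (|K| + A * n)) + 1) / (S * δ), ?_⟩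
  intro M L hP hL1 hL y hy h1 h2
  have hL' : n * (A * (|K| + A * n)) + 1 ≤ L * (S * δ) := by
    rwa [div_le_iff₀ hSδ] at hL
  have hpos : ∀ u : Fin n → ℤ, N u ≤ |K| + A * n → 0 < len l u → 0 < tau (act M u) := by
    intro u hu hlen
    have h3 := tau_close F (act M u)
    rw [len_act l M L hP, ← hSdef] at h3
    have h4 : N (act M u) ≤ N u := by
      have h5 := F.contr M L hP hL1 1 (fun z hz hzL => (hP.pisot z hz hzL).le) u
      linarith
    have h5 : (n : ℝ) * (A * N (act M u)) ≤ n * (A * (|K| + A * n)) :=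
      mul_le_mul_of_nonneg_left (mul_le_mul_of_nonneg_left (h4.trans hu) hA.le) hn0
    have h6 : L * (S * δ) ≤ L * len l u * S := by
      have h7 := mul_le_mul_of_nonneg_left (hgap u hu hlen)
        (mul_nonneg (by linarith : (0 : ℝ) ≤ L) hS.le)
      calc L * (S * δ) = L * S * δ := by ring
        _ ≤ L * S * len l u := h7
        _ = L * len l u * S := by ring
    have h8 := (abs_le.1 h3).1
    have h9 : (0 : ℝ) < (tau (act M u) : ℝ) := by linarith
    exact_mod_cast h9
  have hNy : N y.v ≤ |K| := hy.trans (le_abs_self K)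
  constructor
  · by_contra hcon
    have hle : len l y.v ≤ -(l y.j) := not_lt.1 hcon
    have hlu : len l (-(y.v + Pi.single y.j 1)) = -(len l y.v + l y.j) := by
      rw [len_neg, len_add, len_single]
    have hNu : N (-(y.v + Pi.single y.j 1)) ≤ |K| + A * n := by
      rw [F.neg]
      exact (F.add _ _).trans (add_le_add hNy (hsing y.j))
    have htau : tau (act M (-(y.v + Pi.single y.j 1))) = -(tau (act M y.v) + ml M y.j) := by
      rw [act_neg, tau_neg, act_add, tau_add, tau_act_single]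
    rcases eq_or_lt_of_le (show 0 ≤ len l (-(y.v + Pi.single y.j 1)) by rw [hlu]; linarith)
      with h0 | h0
    · have hu0 : -(y.v + Pi.single y.j 1) = 0 := by
        by_contra hne
        exact len_ne_zero hlin _ hne h0.symm
      rw [hu0, act_zero, tau_zero] at htau
      omega
    · have h3 := hpos _ hNu h0
      rw [htau] at h3
      omega
  · by_contra hcon
    have hle : l y.i ≤ len l y.v := not_lt.1 hcon
    have hlu : len l (y.v - Pi.single y.i 1) = len l y.v - l y.i := by
      rw [len_sub, len_single]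
    have hNu : N (y.v - Pi.single y.i 1) ≤ |K| + A * n := by
      rw [sub_eq_add_neg]
      refine (F.add _ _).trans (add_le_add hNy ?_)
      rw [F.neg]
      exact hsing y.i
    have htau : tau (act M (y.v - Pi.single y.i 1)) = tau (act M y.v) - ml M y.i := by
      rw [act_sub, tau_sub, tau_act_single]
    rcases eq_or_lt_of_le (show 0 ≤ len l (y.v - Pi.single y.i 1) by rw [hlu]; linarith)
      with h0 | h0
    · have hu0 : y.v - Pi.single y.i 1 = 0 := by
        by_contra hne
        exact len_ne_zero hlin _ hne h0.symm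
      rw [hu0, act_zero, tau_zero] at htau
      omega
    · have h3 := hpos _ hNu h0
      rw [htau] at h3
      omega

end H30.PW
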