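import Pool.Agent.H30.PW.Defs

set_option autoImplicit false

/-! Module Row (about 130 lines). The levels of the inflated letters of a word.

Write `Λ p = tau (act M (cont (w.take p)))`.
PROOF of `lev_succ`: `List.take_succ` / `List.take_append_getElem`, `cont_append`-like lemma (see
PM/Alg.lean, H61/PS/RTile.lean), `act_add, tau_add, tau_act_single`.
PROOF of `row_find`: `Nat.find` for the first `p` with `lam < Λ (p + 1)`, or induction on `w`
(`Λ 0 = 0`, `Λ w.length = tau (act M (cont w))`).
PROOF of `row_mid`: the first `q` with `lo ≤ s0 + Λ q` (exists, `q ≤ w.length`): either `q = 0` and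
`s0 + Λ 0 = s0 ≤ lo`, so `= lo`, or `s0 + Λ (q - 1) < lo` and `s0 + Λ q < lo + mx`. In both cases
`s0 + Λ q < lo + mx` as `0 < mx`, so `q ≠ w.length` by `h2`, and `s0 + Λ q + ml ≤ lo + 2 mx`.
PROOF of `row_count`: `Λ` is monotone, `Λ p2 - Λ (p1 + 1) ≥ (p2 - p1 - 1) mn` for `p1 < p2 ≤ w.length`; for
`p1 < p2` in the set: `(p2 - p1 - 1) mn ≤ Λ p2 - Λ (p1 + 1) < D ≤ κ mn`, so `p2 - p1 ≤ κ`
(`< κ + 1`). So the set is contained in `Finset.Icc p0 (p0 + κ)`, `p0` its minimum (or it is
empty). -/

namespace H30.PW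

open H61.PS H30.PM

variable {n : ℕ}

theorem lev_succ (M : Matrix (Fin n) (Fin n) ℕ) (w : List (Fin n)) (p : ℕ) (hp : p < w.length) :
    tau (act M (cont (w.take (p + 1)))) = tau (act M (cont (w.take p))) + ml M w[p] := by
  rw [← List.take_append_getElem hp, cont_append, cont_cons, cont_nil, add_zero, act_add, tau_add,
    tau_act_single]

private theorem Row_zero (M : Matrix (Fin n) (Fin n) ℕ) (w : List (Fin n)) :
    tau (act M (cont (w.take 0))) = 0 := by
  rw [List.take_zero, cont_nil, act_zero, tau_zero]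

private theorem Row_len (M : Matrix (Fin n) (Fin n) ℕ) (w : List (Fin n)) :
    tau (act M (cont (w.take w.length))) = tau (act M (cont w)) := by
  rw [List.take_length]

private theorem Row_grow (M : Matrix (Fin n) (Fin n) ℕ) (w : List (Fin n)) (mn : ℕ)
    (hmn : ∀ j, mn ≤ ml M j) (p k : ℕ) (h : p + k ≤ w.length) :
    tau (act M (cont (w.take p))) + (k : ℤ) * mn ≤ tau (act M (cont (w.take (p + k)))) := by
  induction k with
  | zero => simp
  | succ k ih =>
    have h1 := ih (by omega)
    have h2 := lev_succ M w (p + k) (by omega)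
    rw [← add_assoc, h2]
    have h3 : (mn : ℤ) ≤ ml M w[p + k] := by exact_mod_cast hmn _
    push_cast
    nlinarith

theorem row_find (M : Matrix (Fin n) (Fin n) ℕ) (w : List (Fin n)) (lam : ℤ) (h0 : 0 ≤ lam)
    (h1 : lam < tau (act M (cont w))) :
    ∃ (p : ℕ) (hp : p < w.length), tau (act M (cont (w.take p))) ≤ lam ∧
      lam < tau (act M (cont (w.take p))) + ml M w[p] := by
  classical
  have hex : ∃ p, p < w.length ∧ lam < tau (act M (cont (w.take (p + 1)))) := by
    have h2 : w.length ≠ 0 := by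
      intro h
      have h3 := Row_len M w
      rw [h, Row_zero] at h3
      omega
    refine ⟨w.length - 1, by omega, ?_⟩
    rw [Nat.sub_add_cancel (by omega), Row_len]
    exact h1
  obtain ⟨hp, hp2⟩ := Nat.find_spec hex
  refine ⟨Nat.find hex, hp, ?_, ?_⟩
  · rcases Nat.eq_zero_or_pos (Nat.find hex) with h | h
    · rw [h, Row_zero]
      exact h0
    · have h2 := Nat.find_min hex (m := Nat.find hex - 1) (by omega)
      rw [Nat.sub_add_cancel h] at h2
      by_contra h3
      exact h2 ⟨by omega, not_le.1 h3⟩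
  · rw [← lev_succ M w _ hp]
    exact hp2

theorem row_mid (M : Matrix (Fin n) (Fin n) ℕ) (w : List (Fin n)) (s0 lo : ℤ) (mx : ℕ)
    (hmx : ∀ j, ml M j ≤ mx) (h0 : 0 < mx) (h1 : s0 ≤ lo)
    (h2 : lo + 2 * mx ≤ s0 + tau (act M (cont w))) :
    ∃ (q : ℕ) (hq : q < w.length), lo ≤ s0 + tau (act M (cont (w.take q))) ∧
      s0 + tau (act M (cont (w.take q))) + ml M w[q] ≤ lo + 2 * mx := by
  classical
  have hl : lo ≤ s0 + tau (act M (cont (w.take w.length))) := by
    rw [Row_len]
    omega
  have hex : ∃ q, lo ≤ s0 + tau (act M (cont (w.take q))) := ⟨w.length, hl⟩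
  have hle : Nat.find hex ≤ w.length := Nat.find_min' hex hl
  have hsp := Nat.find_spec hex
  have hlt : s0 + tau (act M (cont (w.take (Nat.find hex)))) < lo + mx := by
    rcases Nat.eq_zero_or_pos (Nat.find hex) with h | h
    · rw [h, Row_zero]
      omega
    · have h3 := Nat.find_min hex (m := Nat.find hex - 1) (by omega)
      have h4 := lev_succ M w (Nat.find hex - 1) (by omega)
      rw [Nat.sub_add_cancel h] at h4
      have h5 : ml M w[Nat.find hex - 1] ≤ mx := hmx _
      omega
  have hne : Nat.find hex ≠ w.length := by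
    intro h
    rw [h, Row_len] at hlt
    omega
  have hq : Nat.find hex < w.length := by omega
  have h6 : ml M w[Nat.find hex] ≤ mx := hmx _
  exact ⟨Nat.find hex, hq, hsp, by omega⟩

theorem row_count (M : Matrix (Fin n) (Fin n) ℕ) (w : List (Fin n)) (mn D κ : ℕ)
    (hmn : ∀ j, mn ≤ ml M j) (h0 : 0 < mn) (hD : D ≤ κ * mn) (lam : ℤ) :
    ((Finset.range w.length).filter fun p => tau (act M (cont (w.take p))) < lam + D ∧
      lam < tau (act M (cont (w.take (p + 1))))).card ≤ κ + 1 := by
  set F := (Finset.range w.length).filter fun p => tau (act M (cont (w.take p))) < lam + D ∧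
      lam < tau (act M (cont (w.take (p + 1)))) with hF
  rcases F.eq_empty_or_nonempty with h | h
  · rw [h]
    simp
  · obtain ⟨p0, hm, hmin⟩ : ∃ p0 ∈ F, ∀ p ∈ F, p0 ≤ p :=
      ⟨F.min' h, F.min'_mem h, fun p hp => F.min'_le p hp⟩
    have hsub : F ⊆ Finset.Icc p0 (p0 + κ) := by
      intro p hp
      rw [Finset.mem_Icc]
      have hle := hmin p hp
      refine ⟨hle, ?_⟩
      by_contra hc
      rw [hF, Finset.mem_filter, Finset.mem_range] at hm hp
      obtain ⟨-, -, hm2⟩ := hm
      obtain ⟨hp0, hp1, -⟩ := hp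
      have h1 := Row_grow M w mn hmn (p0 + 1) (p - (p0 + 1)) (by omega)
      rw [Nat.add_sub_cancel' (by omega)] at h1
      have h2 : (κ : ℤ) ≤ ((p - (p0 + 1) : ℕ) : ℤ) := by omega
      have h3 : (κ : ℤ) * mn ≤ ((p - (p0 + 1) : ℕ) : ℤ) * mn :=
        mul_le_mul_of_nonneg_right h2 (Int.natCast_nonneg _)
      have h4 : (D : ℤ) ≤ κ * mn := by exact_mod_cast hD
      linarith
    refine (Finset.card_le_card hsub).trans ?_
    rw [Nat.card_Icc]
    omega

end H30.PW
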