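import Pool.Agent.H30.PM.Room
import Pool.Agent.H30.PM.PowP
import Pool.Agent.H30.PM.Long
import Pool.Agent.H30.PW.Gw
import Pool.Agent.H30.PW.Row
import Pool.Agent.H30.PW.OvG

set_option autoImplicit false

/-! Every overlap type has a child whose inflation is served by many of the given positions. -/

namespace H30.PW

open H61.PS H30.PM

variable {n : ℕ}

/-- For a rule `t` in the cylinder of radius `C` and sets `P j` of at least `m` positions of the
words: every overlap type of the window has a child `y` of the window such that at least `m / Q` of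
the positions in `P y.j` face, after inflation, the word `y.i`. -/
theorem served {l : Fin n → ℝ} {N : (Fin n → ℤ) → ℝ} {A : ℝ} {r : Fin n → ℝ} (hn : 0 < n)
    (F : Fr l N A r) (hl : ∀ i, 0 < l i) (hlin : LinearIndependent ℚ l) (C : ℝ) :
    ∃ Q : ℕ, 0 < Q ∧ ∃ L1 : ℝ, ∀ (M : Matrix (Fin n) (Fin n) ℕ) (L : ℝ),
      PisotInflation l M L → 1 < L → L1 ≤ L →
      (∀ z : ℂ, (M.map (Nat.cast : ℕ → ℂ)).charpoly.IsRoot z → z ≠ (L : ℂ) → ‖z‖ ≤ 1 / 2) →
      ∀ t ∈ Bal r M C, ∀ (P : Fin n → Finset ℕ) (m : ℕ), 1 ≤ m →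
        (∀ j, ∀ p ∈ P j, p < ml M j) → (∀ j, m ≤ (P j).card) →
        ∀ x ∈ Win l N (4 * (A * (n * C)) + 1), ¬(x.i = x.j ∧ x.v = 0) →
          ∃ y ∈ Win l N (4 * (A * (n * C)) + 1), Child l M t x y ∧ m ≤ Q * (srv M P y).card := by
  classical
  obtain ⟨K, hK⟩ : ∃ K, K = 4 * (A * (n * C)) + 1 := ⟨_, rfl⟩
  obtain ⟨k1, k2, hk1, La, hLa⟩ := ml_bounds F hn hl
  obtain ⟨ρ, hρ, Lb, hLb⟩ := long hn F hl hlin K
  obtain ⟨Lc, hLc⟩ := ov_of_lev hn F hl hlin K
  obtain ⟨κ, hκ⟩ : ∃ κ : ℕ, k2 / k1 ≤ κ := ⟨_, Nat.le_ceil _⟩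
  refine ⟨κ + 1, Nat.succ_pos _, max (max La Lb) (max Lc (2 * k2 / ρ + 1 / k1)), ?_⟩
  intro M L hP hL hLL hθ t ht P m hm hPlt hPm x hx hxc
  rw [← hK] at hx ⊢
  have hL1 : La ≤ L := (le_max_left _ _).trans ((le_max_left _ _).trans hLL)
  have hL2 : Lb ≤ L := (le_max_right _ _).trans ((le_max_left _ _).trans hLL)
  have hL3 : Lc ≤ L := (le_max_left _ _).trans ((le_max_right _ _).trans hLL)
  have hL4 : 2 * k2 / ρ + 1 / k1 ≤ L := (le_max_right _ _).trans ((le_max_right _ _).trans hLL)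
  have hmlb := hLa M L hP hL hL1
  have hL0 : 0 < L := by linarith
  -- the bounds of the lengths
  have hne : (Finset.univ : Finset (Fin n)).Nonempty := ⟨⟨0, hn⟩, Finset.mem_univ _⟩
  obtain ⟨jx, -, hjx⟩ := Finset.exists_max_image Finset.univ (ml M) hne
  obtain ⟨jn, -, hjn⟩ := Finset.exists_min_image Finset.univ (ml M) hne
  obtain ⟨mx, hmx⟩ : ∃ mx, mx = ml M jx := ⟨_, rfl⟩
  obtain ⟨mn, hmn⟩ : ∃ mn, mn = ml M jn := ⟨_, rfl⟩
  have hmx1 : ∀ j, ml M j ≤ mx := fun j => by rw [hmx]; exact hjx j (Finset.mem_univ _)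
  have hmn1 : ∀ j, mn ≤ ml M j := fun j => by rw [hmn]; exact hjn j (Finset.mem_univ _)
  have hk2 : 0 ≤ k2 := by
    have h1 := (hmlb jx).1
    have h2 := (hmlb jx).2
    have h3 : 0 < k1 * L := mul_pos hk1 hL0
    by_contra hcon
    push Not at hcon
    have h4 : k2 * L < 0 := mul_neg_of_neg_of_pos hcon hL0
    linarith
  have hmn0 : 0 < mn := by
    have h1 : k1 * L ≤ mn := by rw [hmn]; exact (hmlb jn).1
    have h2 : (0 : ℝ) < mn := lt_of_lt_of_le (mul_pos hk1 hL0) h1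
    exact_mod_cast h2
  have hmx0 : 0 < mx := lt_of_lt_of_le hmn0 (hmn1 jx |>.trans (hmx1 jx))
  have hmxn : mx ≤ κ * mn := by
    have h1 : (mx : ℝ) ≤ k2 * L := by rw [hmx]; exact (hmlb jx).2
    have h2 : k1 * L ≤ mn := by rw [hmn]; exact (hmlb jn).1
    have h3 : k2 ≤ κ * k1 := (div_le_iff₀ hk1).1 hκ
    have h4 : k2 * L ≤ κ * k1 * L := mul_le_mul_of_nonneg_right h3 hL0.le
    have h5 : (κ : ℝ) * (k1 * L) ≤ κ * mn := mul_le_mul_of_nonneg_left h2 (Nat.cast_nonneg _)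
    have h6 : (mx : ℝ) ≤ κ * mn := by linarith
    exact_mod_cast h6
  -- two steps of inflation
  have hP2 := pisot_pow hl hP hL 2 (by norm_num)
  have hLsq : L ≤ L ^ 2 := by nlinarith
  obtain ⟨lo, R, hR, hS⟩ := hLb (M ^ 2) (L ^ 2) hP2 (by nlinarith) (hL2.trans hLsq) x hx hxc
  have hact : ∀ v, act (M ^ 2) v = act M (act M v) := fun v => by rw [pow_two, act_mul]
  have hR2 : 2 * mx ≤ R := by
    have h1 : (mx : ℝ) ≤ k2 * L := by rw [hmx]; exact (hmlb jx).2
    have h2 : 2 * k2 / ρ ≤ L := by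
      have : 0 ≤ 1 / k1 := by positivity
      linarith
    have h3 : 2 * k2 ≤ L * ρ := (div_le_iff₀ hρ).1 h2
    have h4 : 2 * k2 * L ≤ L * ρ * L := mul_le_mul_of_nonneg_right h3 hL0.le
    have h5 : ((2 * mx : ℕ) : ℝ) ≤ (R : ℝ) := by
      push_cast
      have : L * ρ * L = ρ * L ^ 2 := by ring
      linarith
    exact_mod_cast h5
  have hS1 := hS.h1
  have hS2 := hS.h2
  have hS3 := hS.h3
  rw [hact] at hS1 hS3
  have htot : ∀ j, tau (act M (cont (t j))) = ml (M ^ 2) j := by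
    intro j
    rw [cont_eq_act ht.1, ← hact, tau_act_single]
  obtain ⟨q, hq, hq1, hq2⟩ := row_mid M (t x.j) (tau (act M (act M x.v))) lo mx hmx1 hmx0 hS1 (by
    rw [htot]
    have h1 : ((2 * mx : ℕ) : ℤ) ≤ R := by exact_mod_cast hR2
    push_cast at h1
    linarith)
  obtain ⟨b, hb⟩ : ∃ b, b = (t x.j)[q] := ⟨_, rfl⟩
  obtain ⟨lam, hlam⟩ : ∃ lam, lam = tau (act M (act M x.v)) +
    tau (act M (cont ((t x.j).take q))) := ⟨_, rfl⟩
  rw [← hlam] at hq1 hq2
  rw [← hb] at hq2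
  have hlo0 : (0 : ℤ) ≤ lo := Int.natCast_nonneg _
  have hlamT : lam + ml M b ≤ tau (act M (cont (t x.i))) := by
    rw [htot]
    have h1 : ((2 * mx : ℕ) : ℤ) ≤ R := by exact_mod_cast hR2
    have h2 : ((lo + R : ℕ) : ℤ) ≤ ml (M ^ 2) x.i := by exact_mod_cast hS2
    push_cast at h1 h2
    linarith
  have hfind : ∀ p' : ℕ, p' < ml M b → ∃ p : ℕ, p < (t x.i).length ∧
      tau (act M (cont ((t x.i).take p))) ≤ lam + p' ∧
      lam + p' < tau (act M (cont ((t x.i).take (p + 1)))) := by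
    intro p' hp'
    have h1 : (p' : ℤ) < ml M b := by exact_mod_cast hp'
    obtain ⟨p, hp, h2, h3⟩ := row_find M (t x.i) (lam + p')
      (by have := Int.natCast_nonneg p'; linarith) (by linarith)
    exact ⟨p, hp, h2, by rw [lev_succ M _ _ hp]; exact h3⟩
  choose! f hf1 hf2 hf3 using hfind
  obtain ⟨T, hT⟩ : ∃ T, T = (Finset.range (t x.i).length).filter fun p =>
    tau (act M (cont ((t x.i).take p))) < lam + mx ∧
      lam < tau (act M (cont ((t x.i).take (p + 1)))) := ⟨_, rfl⟩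
  have hTc : T.card ≤ κ + 1 := by
    rw [hT]
    exact row_count M (t x.i) mn mx κ hmn1 hmn0 hmxn lam
  have hmaps : ∀ p' ∈ P b, f p' ∈ T := by
    intro p' hp'
    have h1 := hPlt b p' hp'
    have h2 : (p' : ℤ) < mx := by exact_mod_cast h1.trans_le (hmx1 b)
    have h3 : (0 : ℤ) ≤ p' := Int.natCast_nonneg _
    rw [hT, Finset.mem_filter, Finset.mem_range]
    exact ⟨hf1 p' h1, lt_of_le_of_lt (hf2 p' h1) (by linarith),
      lt_of_le_of_lt (by linarith) (hf3 p' h1)⟩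
  -- the pigeonhole principle
  obtain ⟨p, hpT, hp⟩ : ∃ p ∈ T, m ≤ (κ + 1) * ((P b).filter fun p' => f p' = p).card := by
    by_contra hcon
    push Not at hcon
    have h1 := Finset.card_eq_sum_card_fiberwise (f := f) (s := P b) (t := T)
      (fun p' hp' => hmaps p' hp')
    have hTne : T.Nonempty := by
      have h2 : (P b).Nonempty := Finset.card_pos.1 (lt_of_lt_of_le hm (hPm b))
      obtain ⟨p', hp'⟩ := h2
      exact ⟨_, hmaps p' hp'⟩
    have h2 : (κ + 1) * (P b).card < T.card * m := by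
      rw [h1, Finset.mul_sum, ← smul_eq_mul (T.card), ← Finset.sum_const]
      exact Finset.sum_lt_sum_of_nonempty hTne fun p hp => hcon p hp
    have h3 : T.card * m ≤ (κ + 1) * m := Nat.mul_le_mul_right m hTc
    have h4 : (κ + 1) * m ≤ (κ + 1) * (P b).card := Nat.mul_le_mul_left _ (hPm b)
    omega
  have hplt : p < (t x.i).length := by
    rw [hT, Finset.mem_filter, Finset.mem_range] at hpT
    exact hpT.1
  obtain ⟨y, hy⟩ : ∃ y : OT n, y = ⟨(t x.i)[p], b,
    act M x.v + cont ((t x.j).take q) - cont ((t x.i).take p)⟩ := ⟨_, rfl⟩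
  have hyi : y.i = (t x.i)[p] := by rw [hy]
  have hyj : y.j = b := by rw [hy]
  have hyv : y.v = act M x.v + cont ((t x.j).take q) - cont ((t x.i).take p) := by rw [hy]
  have hytau : tau (act M y.v) = lam - tau (act M (cont ((t x.i).take p))) := by
    rw [hyv, act_sub, act_add, tau_sub, tau_add, hlam]
  have hsub : ((P b).filter fun p' => f p' = p) ⊆ srv M P y := by
    intro p' hp'
    rw [Finset.mem_filter] at hp'
    obtain ⟨h1, h2⟩ := hp'
    have h3 := hPlt b p' h1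
    have h4 := hf2 p' h3
    have h5 := hf3 p' h3
    rw [h2] at h4 h5
    rw [lev_succ M _ _ hplt] at h5
    unfold srv
    rw [hyj, Finset.mem_filter, hytau, hyi]
    exact ⟨h1, by linarith, by linarith⟩
  have hcard : m ≤ (κ + 1) * (srv M P y).card :=
    hp.trans (Nat.mul_le_mul_left _ (Finset.card_le_card hsub))
  have hNy : N y.v ≤ K := by
    have h1 : ∀ j p, N (cont ((t j).take p)) ≤ A * (n * C) := by
      intro j p
      refine (N_le_dst F hn _).trans ?_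
      exact mul_le_mul_of_nonneg_left (mul_le_mul_of_nonneg_left (ht.2 j p) (Nat.cast_nonneg n))
        (by linarith [F.A1])
    have h2 := F.contr M L hP hL (1 / 2) hθ x.v
    have h3 := F.add (act M x.v + cont ((t x.j).take q)) (-cont ((t x.i).take p))
    have h4 := F.add (act M x.v) (cont ((t x.j).take q))
    rw [F.neg, ← sub_eq_add_neg] at h3
    have h5 := h1 x.j q
    have h6 := h1 x.i p
    have h7 := hx.2
    rw [hyv]
    rw [hK] at h7 ⊢
    linarith
  have hov : IsOv l y := by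
    have h1 : (srv M P y).Nonempty := by
      rw [← Finset.card_pos]
      by_contra hcon
      have : (srv M P y).card = 0 := by omega
      rw [this] at hcard
      omega
    obtain ⟨p', hp'⟩ := h1
    unfold srv at hp'
    rw [Finset.mem_filter] at hp'
    obtain ⟨h2, h3, h4⟩ := hp'
    have h5 : (p' : ℤ) < ml M y.j := by exact_mod_cast hPlt y.j p' h2
    have h6 : (0 : ℤ) ≤ p' := Int.natCast_nonneg _
    exact hLc M L hP hL hL3 y hNy (by linarith) (by linarith)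
  refine ⟨y, ⟨hov, hNy⟩, ?_, hcard⟩
  refine ⟨hov, p, q, hplt, hq, ?_, ?_, ?_⟩
  · rw [hyi]
  · rw [hyj, hb]
  · rw [hyv]

/-- Coincidences for all served types make the rule good. -/
theorem good_of_srv {l : Fin n → ℝ} {N : (Fin n → ℤ) → ℝ} {A : ℝ} {r : Fin n → ℝ} (hn : 0 < n)
    (F : Fr l N A r) (hl : ∀ i, 0 < l i) {M : Matrix (Fin n) (Fin n) ℕ} {L : ℝ}
    (hP : PisotInflation l M L) (hL : 1 < L)
    (hθ : ∀ z : ℂ, (M.map (Nat.cast : ℕ → ℂ)).charpoly.IsRoot z → z ≠ (L : ℂ) → ‖z‖ ≤ 1 / 2)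
    {C : ℝ} {t : Subst n} (ht : t ∈ Bal r M C) {P : Fin n → Finset ℕ} {m Q : ℕ}
    (h1 : ∀ x ∈ Win l N (4 * (A * (n * C)) + 1), ¬(x.i = x.j ∧ x.v = 0) →
          ∃ y ∈ Win l N (4 * (A * (n * C)) + 1), Child l M t x y ∧ m ≤ Q * (srv M P y).card)
    (h2 : ∀ y ∈ Win l N (4 * (A * (n * C)) + 1), ¬(y.i = y.j ∧ y.v = 0) →
      m ≤ Q * (srv M P y).card → ∃ a, Child l M t y ⟨a, a, 0⟩) : Good l M t := by
  have hA := F.A1
  refine good_of_desc F hl hP hL hθ ht.1 (A * (n * C)) ?_ ?_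
  · intro j p
    refine (N_le_dst F hn _).trans ?_
    exact mul_le_mul_of_nonneg_left (mul_le_mul_of_nonneg_left (ht.2 j p) (Nat.cast_nonneg n))
      (by linarith)
  · intro x hx
    by_cases hc : x.i = x.j ∧ x.v = 0
    · refine ⟨x.i, ?_⟩
      obtain ⟨i, j, v⟩ := x
      simp only at hc
      obtain ⟨rfl, rfl⟩ := hc
      exact Relation.ReflTransGen.refl
    · obtain ⟨y, hy, hxy, hys⟩ := h1 x hx hc
      by_cases hc' : y.i = y.j ∧ y.v = 0
      · refine ⟨y.i, ?_⟩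
        obtain ⟨i, j, v⟩ := y
        simp only at hc'
        obtain ⟨rfl, rfl⟩ := hc'
        exact Relation.ReflTransGen.single hxy
      · obtain ⟨a, ha⟩ := h2 y hy hc' hys
        exact ⟨a, (Relation.ReflTransGen.single hxy).tail ha⟩

end H30.PW
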