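import Pool.Agent.H30.PM.FinA
import Pool.Agent.H30.PW.Srv
import Pool.Agent.H30.PW.One
import Pool.Agent.H30.PW.Cf

set_option autoImplicit false

/-! One window in every word: a modification inside the windows makes the rule good. -/

namespace H30.PW

open H61.PS H30.PM

variable {n : ℕ}

/-- Modification inside prescribed windows, one for every word. -/
theorem modify_w {l : Fin n → ℝ} {N : (Fin n → ℤ) → ℝ} {A : ℝ} {r : Fin n → ℝ} (hn : 0 < n)
    (F : Fr l N A r) (hl : ∀ i, 0 < l i) (hlin : LinearIndependent ℚ l) (C' : ℝ) :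
    ∃ W0 : ℕ, ∀ W, W0 ≤ W → ∃ L1 : ℝ, ∀ (M : Matrix (Fin n) (Fin n) ℕ) (L : ℝ),
      PisotInflation l M L → 1 < L → L1 ≤ L →
      (∀ z : ℂ, (M.map (Nat.cast : ℕ → ℂ)).charpoly.IsRoot z → z ≠ (L : ℂ) →
        ‖z‖ ≤ 1 / (32 * (A * n) ^ 2)) →
      ∀ s ∈ Bal r M C', ∀ β : Fin n → ℕ, (∀ j, β j + W ≤ ml M j) →
        ∃ t : Subst n, HasMatrix t M ∧
          (∀ j q, q < β j ∨ β j + W ≤ q → (t j)[q]? = (s j)[q]?) ∧ Good l M t := by
  classical
  have hr : ∃ i, r i ≠ 0 := ⟨⟨0, hn⟩, (F.rpos _).ne'⟩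
  obtain ⟨C1, hC1⟩ := path hn r F.rpos
  obtain ⟨C, hCdef⟩ : ∃ C, C = max C1 (max (2 * (|C'| + 1)) 1) := ⟨_, rfl⟩
  have hCa : C1 ≤ C := by rw [hCdef]; exact le_max_left _ _
  have hCb : 2 * (|C'| + 1) ≤ C := by
    rw [hCdef]; exact (le_max_left _ _).trans (le_max_right _ _)
  have hCc : 1 ≤ C := by rw [hCdef]; exact (le_max_right _ _).trans (le_max_right _ _)
  have hC' : C' ≤ C / 2 - 1 := by
    have := le_abs_self C'
    linarith
  obtain ⟨B1, hB1⟩ := hC1 C hCa
  obtain ⟨K, hK⟩ : ∃ K, K = 4 * (A * (n * C)) + 1 := ⟨_, rfl⟩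
  obtain ⟨Q, hQ, L1, hserv⟩ := served hn F hl hlin C
  obtain ⟨ρ, hρ, L2, hlong⟩ := long hn F hl hlin K
  obtain ⟨X, hX⟩ : ∃ X : Finset (OT n), X = (win_finite F hl K).toFinset.filter
    fun x => ¬(x.i = x.j ∧ x.v = 0) := ⟨_, rfl⟩
  have hXm : ∀ x, x ∈ X ↔ x ∈ Win l N K ∧ ¬(x.i = x.j ∧ x.v = 0) := by
    intro x
    rw [hX, Finset.mem_filter, Set.Finite.mem_toFinset]
  obtain ⟨B, hB⟩ : ∃ B, B = 2 * B1 + 1 := ⟨_, rfl⟩
  refine ⟨2 * B1 + Q * (X.card * (4 * B) + 1), fun W hW => ?_⟩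
  refine ⟨max L1 (max L2 (B / ρ)), ?_⟩
  intro M L hP hL hLL hθ s hs β hβ
  have hLa : L1 ≤ L := (le_max_left _ _).trans hLL
  have hLb : L2 ≤ L := (le_max_left _ _).trans ((le_max_right _ _).trans hLL)
  have hLc : (B : ℝ) / ρ ≤ L := (le_max_right _ _).trans ((le_max_right _ _).trans hLL)
  have hθ2 : ∀ z : ℂ, (M.map (Nat.cast : ℕ → ℂ)).charpoly.IsRoot z → z ≠ (L : ℂ) →
      ‖z‖ ≤ 1 / 2 := fun z h1 h2 => (hθ z h1 h2).trans (small_half F.A1 hn)
  have hsC : s ∈ Bal r M C := ⟨hs.1, fun j p => (hs.2 j p).trans (by linarith)⟩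
  -- the touching positions
  obtain ⟨P, hPdef⟩ : ∃ P : Fin n → Finset ℕ, P = fun j =>
    (Finset.Ico (β j) (β j + W - 2 * B1)).image (· + B1) := ⟨_, rfl⟩
  have hPm : ∀ j p, p ∈ P j ↔ ∃ q, β j ≤ q ∧ q + 2 * B1 < β j + W ∧ q + B1 = p := by
    intro j p
    rw [hPdef]
    simp only [Finset.mem_image, Finset.mem_Ico]
    constructor
    · rintro ⟨q, ⟨h1, h2⟩, h3⟩
      exact ⟨q, h1, by omega, h3⟩
    · rintro ⟨q, h1, h2, h3⟩
      exact ⟨q, ⟨h1, by omega⟩, h3⟩
  have hPc : ∀ j, (P j).card = W - 2 * B1 := by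
    intro j
    rw [hPdef]
    simp only
    rw [Finset.card_image_of_injective _ (add_left_injective B1), Nat.card_Ico]
    omega
  have hPlt : ∀ j, ∀ p ∈ P j, p < ml M j := by
    intro j p hp
    obtain ⟨q, h1, h2, h3⟩ := (hPm j p).1 hp
    have := hβ j
    omega
  have hm1 : Q * (X.card * (4 * B) + 1) ≤ W - 2 * B1 := by omega
  have hm0 : 1 ≤ W - 2 * B1 := by
    refine le_trans ?_ hm1
    exact Nat.mul_pos hQ (Nat.succ_pos _)
  -- the shifts
  obtain ⟨σ, hσ⟩ : ∃ σ : OT n → ℤ, σ = fun y => tau (act M y.v) := ⟨_, rfl⟩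
  obtain ⟨Y, hY⟩ : ∃ Y : Finset (OT n), Y = X.filter fun y => W - 2 * B1 ≤ Q * (srv M P y).card :=
    ⟨_, rfl⟩
  have hYm : ∀ y, y ∈ Y ↔ y ∈ X ∧ W - 2 * B1 ≤ Q * (srv M P y).card := by
    intro y
    rw [hY, Finset.mem_filter]
  have hYX : Y.card ≤ X.card := by
    rw [hY]
    exact Finset.card_filter_le _ _
  obtain ⟨cand, hcand⟩ : ∃ cand : OT n → Finset ℕ, cand = fun y =>
    (Finset.range (β y.j + W)).filter fun q => q + B1 ∈ srv M P y := ⟨_, rfl⟩
  have hcm : ∀ y q, q ∈ cand y ↔ q + B1 ∈ srv M P y := by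
    intro y q
    rw [hcand]
    simp only [Finset.mem_filter, Finset.mem_range]
    constructor
    · exact fun h => h.2
    · intro h
      refine ⟨?_, h⟩
      unfold srv at h
      rw [Finset.mem_filter] at h
      obtain ⟨q', h1, h2, h3⟩ := (hPm _ _).1 h.1
      omega
  have hcc : ∀ y, (cand y).card = (srv M P y).card := by
    intro y
    refine Finset.card_bij (fun q _ => q + B1) (fun q hq => (hcm y q).1 hq)
      (fun q _ q' _ h => by omega) (fun p hp => ?_)
    have h := hp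
    unfold srv at h
    rw [Finset.mem_filter] at h
    obtain ⟨q, h1, h2, h3⟩ := (hPm _ _).1 h.1
    exact ⟨q, (hcm y q).2 (by rw [h3]; exact hp), h3⟩
  obtain ⟨f, hf1, hf2⟩ := greedy Y cand (Conf B B1 σ) (fun x b y b' h => conf_symm h) (4 * B) (by
      intro x hx y hy b' hb'
      obtain ⟨h1, h2⟩ := conf_count B B1 σ x y b'
      refine (Set.ncard_le_ncard ?_ h2).trans h1
      rintro b ⟨hb1, hb2⟩
      exact hb2) (by
      intro x hx
      rw [hcc]
      have h1 := hm1.trans ((hYm x).1 hx).2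
      have h2 : X.card * (4 * B) + 1 ≤ (srv M P x).card := by
        by_contra hcon
        push Not at hcon
        have := Nat.mul_lt_mul_of_pos_left hcon hQ
        omega
      have h3 : Y.card * (4 * B) ≤ X.card * (4 * B) := Nat.mul_le_mul_right _ hYX
      omega)
  -- data of the chosen positions
  have hdat : ∀ y ∈ Y, β y.j ≤ f y ∧ f y + B ≤ β y.j + W ∧ 0 ≤ (f y : ℤ) + B1 + σ y ∧
      (f y : ℤ) + B1 + σ y < (ml M y.i : ℤ) := by
    intro y hy
    have h1 := (hcm y _).1 (hf1 y hy)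
    unfold srv at h1
    rw [Finset.mem_filter] at h1
    obtain ⟨h2, h3, h4⟩ := h1
    obtain ⟨q, h5, h6, h7⟩ := (hPm _ _).1 h2
    have h8 : q = f y := by omega
    rw [h8] at h5 h6
    have h9 : ((f y + B1 : ℕ) : ℤ) = (f y : ℤ) + B1 := by push_cast; ring
    rw [h9] at h3 h4
    rw [hσ, hB]
    exact ⟨h5, by omega, h3, h4⟩
  obtain ⟨pp, hpp⟩ : ∃ pp : OT n → ℕ, pp = fun y => ((f y : ℤ) + B1 + σ y).toNat := ⟨_, rfl⟩
  have hpz : ∀ y ∈ Y, (pp y : ℤ) = (f y : ℤ) + B1 + σ y := by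
    intro y hy
    rw [hpp]
    exact Int.toNat_of_nonneg (hdat y hy).2.2.1
  have hpl : ∀ y ∈ Y, pp y < ml M y.i := by
    intro y hy
    have h1 := (hdat y hy).2.2.2
    rw [← hpz y hy] at h1
    exact_mod_cast h1
  have hself : ∀ y ∈ Y, y.i = y.j → pp y < f y ∨ f y + B ≤ pp y := by
    intro y hy hij
    have h1 := (hXm y).1 ((hYm y).1 hy).1
    obtain ⟨lo, R, hR, hS⟩ := hlong M L hP hL hLb y h1.1 h1.2
    have h2 := hS.h4 hij
    have h3 : (B : ℝ) ≤ R := by
      have h4 : (B : ℝ) ≤ L * ρ := (div_le_iff₀ hρ).1 hLc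
      linarith
    have h4 : B ≤ R := by exact_mod_cast h3
    have h5 := hpz y hy
    have h6 : σ y = tau (act M y.v) := by rw [hσ]
    rw [← h6] at h2
    rcases abs_cases (σ y) with h7 | h7 <;> omega
  have hlen : ∀ j, (s j).length = ml M j := fun j => length_eq_ml hs.1 j
  obtain ⟨aa, haa⟩ : ∃ aa : OT n → Fin n, ∀ y ∈ Y, (s y.i)[pp y]? = some (aa y) := by
    refine ⟨fun y => ((s y.i)[pp y]?).getD ⟨0, hn⟩, fun y hy => ?_⟩
    have h1 : pp y < (s y.i).length := by rw [hlen]; exact hpl y hy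
    simp only [List.getElem?_eq_getElem h1, Option.getD_some]
  obtain ⟨dem, hdem⟩ : ∃ dem : OT n → Dem n, dem = fun y =>
    ⟨y.j, f y, cont ((s y.i).take (pp y)) - act M y.v, aa y⟩ := ⟨_, rfl⟩
  obtain ⟨t, ht, ht1, ht2⟩ := all_one hr hB1 hsC (Y.toList.map dem) (by
      intro R hR
      obtain ⟨y, hy, rfl⟩ := List.mem_map.1 hR
      rw [Finset.mem_toList] at hy
      have h1 := (hdat y hy).2.1
      have h2 := hβ y.j
      rw [hdem]
      simp only
      omega) (by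
      intro R hR
      obtain ⟨y, hy, rfl⟩ := List.mem_map.1 hR
      rw [Finset.mem_toList] at hy
      rw [hdem]
      simp only
      have h1 : pp y ≤ (s y.i).length := by rw [hlen]; exact (hpl y hy).le
      rw [tau_sub, tau_cont, List.length_take, min_eq_left h1, hpz y hy, hσ]
      ring) (by
      intro R hR
      obtain ⟨y, hy, rfl⟩ := List.mem_map.1 hR
      rw [Finset.mem_toList] at hy
      rw [hdem]
      simp only
      have h1 := (hXm y).1 ((hYm y).1 hy).1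
      have h2 := window_dst F hn hP hL hθ hCc y.v (by rw [← hK]; exact h1.1.2)
      have h3 := dst_add r hr (cont ((s y.i).take (pp y))) (-act M y.v)
      rw [dst_neg r hr, ← sub_eq_add_neg] at h3
      have h4 := hs.2 y.i (pp y)
      linarith) (by
      rw [List.pairwise_map]
      refine List.Pairwise.imp_of_mem ?_ Y.nodup_toList
      intro x y hx hy hxy _
      rw [Finset.mem_toList] at hx hy
      have h1 := hf2 x hx y hy hxy
      rw [hdem, ← hB]
      simp only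
      unfold Conf at h1
      push Not at h1
      have h2 := h1.1
      omega)
  refine ⟨t, ht.1, ?_, ?_⟩
  · intro j q hq
    refine (ht2 j q ?_).1
    intro R hR hj
    obtain ⟨y, hy, rfl⟩ := List.mem_map.1 hR
    rw [Finset.mem_toList] at hy
    obtain ⟨h1, h2, -, -⟩ := hdat y hy
    rw [hdem] at hj ⊢
    simp only at hj ⊢
    subst hj
    omega
  · refine good_of_srv hn F hl hP hL hθ2 ht
      (hserv M L hP hL hLa hθ2 t ht P (W - 2 * B1) hm0 hPlt (fun j => (hPc j).ge)) ?_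
    intro y hy hyc hym
    rw [← hK] at hy
    have hyY : y ∈ Y := (hYm y).2 ⟨(hXm y).2 ⟨hy, hyc⟩, hym⟩
    have h1 := ht1 (dem y) (List.mem_map.2 ⟨y, Finset.mem_toList.2 hyY, rfl⟩)
    rw [hdem] at h1
    simp only at h1
    obtain ⟨h2, h3⟩ := h1
    have h4 := ht2 y.i (pp y) (by
      intro R hR hj
      obtain ⟨x, hx, rfl⟩ := List.mem_map.1 hR
      rw [Finset.mem_toList] at hx
      rw [hdem] at hj ⊢
      simp only at hj ⊢
      rw [← hB]
      by_cases hxy : x = y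
      · subst hxy
        exact hself x hx hj.symm
      · have h5 := hf2 x hx y hyY hxy
        unfold Conf at h5
        push Not at h5
        obtain ⟨-, -, h6⟩ := h5
        have h7 := hpz y hyY
        by_contra hcon
        push Not at hcon
        have h8 := h6 (by rw [← h7]; exact_mod_cast hcon.1)
        rw [← h7] at h8
        have h9 : (pp y : ℤ) < f x + B := by exact_mod_cast hcon.2
        linarith)
    obtain ⟨h5, h6⟩ := h4
    refine child_of_hitP hl (p := pp y) (q := f y + B1) ⟨aa y, ?_, h3, ?_⟩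
    · rw [h5]
      exact haa y hyY
    · rw [h2, h6]
      abel

end H30.PW
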