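import Pool.Agent.H30.PW.Defs

set_option autoImplicit false

/-! Module Fb (about 80 lines). The fibres of the surgery.

PROOF. Let `a : Fin n` be any letter (`hn`). The map
`t ↦ (fun k : Fin W => ((t j)[b + k]?).getD a, fun k : Fin W => ((t i)[c + k]?).getD a)` is injective on
`{t | t ∈ T ∧ F t = u}`: two such `t, t'` agree outside the two blocks (both with `u`), and inside by the
map (positions `< length = ml M _`, `length_eq_ml`; positions `≥ length` are `none` for both); `List.ext_getElem?`.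
The target has `n ^ W * n ^ W = n ^ (2 W)` elements. (Compare `Cnt_list_eq`, `Cnt_step` in PM/Cnt.lean;
`Set.ncard_le_ncard_of_injOn`.) -/

namespace H30.PW

open H61.PS H30.PM

variable {n : ℕ}

private theorem fib_aux {M : Matrix (Fin n) (Fin n) ℕ} {t t' : Subst n} (ht : HasMatrix t M)
    (ht' : HasMatrix t' M) (a j : Fin n) (q : ℕ)
    (h : ((t j)[q]?).getD a = ((t' j)[q]?).getD a) : (t j)[q]? = (t' j)[q]? := by
  have l1 := length_eq_ml ht j
  have l2 := length_eq_ml ht' j
  by_cases hq : q < ml M j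
  · rw [List.getElem?_eq_getElem (by omega : q < (t j).length),
      List.getElem?_eq_getElem (by omega : q < (t' j).length)] at h ⊢
    simpa using h
  · rw [List.getElem?_eq_none (by omega : (t j).length ≤ q),
      List.getElem?_eq_none (by omega : (t' j).length ≤ q)]

theorem fib (hn : 0 < n) {M : Matrix (Fin n) (Fin n) ℕ} {T : Set (Subst n)}
    (hT : ∀ t ∈ T, HasMatrix t M) (F : Subst n → Subst n) (W : ℕ) (i j : Fin n) (c b : ℕ)
    (hF : ∀ t ∈ T, ∀ j0 q0, ¬(j0 = j ∧ b ≤ q0 ∧ q0 < b + W) → ¬(j0 = i ∧ c ≤ q0 ∧ q0 < c + W) →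
      (F t j0)[q0]? = (t j0)[q0]?) (u : Subst n) :
    {t | t ∈ T ∧ F t = u}.ncard ≤ n ^ (2 * W) := by
  have a : Fin n := ⟨0, hn⟩
  let g : Subst n → (Fin W → Fin n) × (Fin W → Fin n) := fun t =>
    (fun k => ((t j)[b + (k : ℕ)]?).getD a, fun k => ((t i)[c + (k : ℕ)]?).getD a)
  have hinj : Set.InjOn g {t | t ∈ T ∧ F t = u} := by
    rintro t ⟨ht, hFt⟩ t' ⟨ht', hFt'⟩ hg
    have hg1 := congrArg Prod.fst hg
    have hg2 := congrArg Prod.snd hg
    funext j0
    apply List.ext_getElem?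
    intro q0
    by_cases h1 : j0 = j ∧ b ≤ q0 ∧ q0 < b + W
    · obtain ⟨rfl, h1, h2⟩ := h1
      have e := congrFun hg1 ⟨q0 - b, by omega⟩
      simp only [g] at e
      rw [Nat.add_sub_cancel' h1] at e
      exact fib_aux (hT t ht) (hT t' ht') a j0 q0 e
    · by_cases h2 : j0 = i ∧ c ≤ q0 ∧ q0 < c + W
      · obtain ⟨rfl, h2, h3⟩ := h2
        have e := congrFun hg2 ⟨q0 - c, by omega⟩
        simp only [g] at e
        rw [Nat.add_sub_cancel' h2] at e
        exact fib_aux (hT t ht) (hT t' ht') a j0 q0 e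
      · rw [← hF t ht j0 q0 h1 h2, ← hF t' ht' j0 q0 h1 h2, hFt, hFt']
  have hle := Set.ncard_le_ncard_of_injOn g (t := Set.univ) (fun t _ => Set.mem_univ _) hinj
    Set.finite_univ
  rw [Set.ncard_univ, Nat.card_eq_fintype_card, Fintype.card_prod, Fintype.card_fun,
    Fintype.card_fin, Fintype.card_fin] at hle
  calc _ ≤ n ^ W * n ^ W := hle
    _ = n ^ (2 * W) := by rw [← pow_add, two_mul]

end H30.PW
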