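import Pool.Agent.H30.PW.Rp

set_option autoImplicit false

/-! Module Hp (about 70 lines). The other hits are not disturbed.

PROOF. `HitP M t' y p' (b' + B1)` depends only on content and letter of `t' y.i` at `p'` and of `t' y.j` at
`b' + B1`; by `rearr_loc` it is enough that `t` and `t'` agree on the windows containing these positions.
The window `c ∈ w y.j` containing `b' + B1` is `b'` (disjointness; `B1 < W`). (1) Position `q0` in the window
`b'` of the word `y.j`: it is not in the window `b ≠ b'`; if `y.j = y.i` and `q0` is in a window `c ∋ p` of `w y.i`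
then `c = b'` (both in `w y.j`, sharing `q0`), contradiction to `h1`. (2) Position `q0` in a window `c ∋ p'` of the
word `y.i`: if `y.i = y.j` and `q0` in the window `b` then `c = b`, so `p'` is in the window `b`,
contradiction to `h2`; if `q0` is in a window `c' ∋ p` of `w y.i` then `c = c'` contains `p` and `p'`, but
`|p - p'| = |b - b'| ≥ W`. -/

namespace H30.PW

open H61.PS H30.PM

variable {n : ℕ}

private lemma Hp_same {s : Subst n} {W : ℕ} {w : Fin n → Finset ℕ} (hw : Windows s W w)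
    {j : Fin n} {c c' q : ℕ} (hc : c ∈ w j) (hc' : c' ∈ w j) (h1 : c ≤ q) (h2 : q < c + W)
    (h3 : c' ≤ q) (h4 : q < c' + W) : c = c' := by
  by_contra h
  rcases hw.disjoint j c hc c' hc' h with h5 | h5 <;> omega

theorem hit_keep {s : Subst n} {W : ℕ} {w : Fin n → Finset ℕ} (hw : Windows s W w)
    {M : Matrix (Fin n) (Fin n) ℕ} {y : OT n} {B1 : ℕ} (hB : B1 < W) {b b' p p' : ℕ}
    (hb : b ∈ w y.j) (hb' : b' ∈ w y.j) (hne : b ≠ b')
    (hp : (p : ℤ) = b + B1 + tau (act M y.v)) (hp' : (p' : ℤ) = b' + B1 + tau (act M y.v))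
    (h1 : y.i = y.j → ¬(b' ≤ p ∧ p < b' + W)) (h2 : y.i = y.j → ¬(b ≤ p' ∧ p' < b + W))
    {t t' : Subst n} (ht : t ∈ Rearr s W w) (ht' : t' ∈ Rearr s W w)
    (h : ∀ j0 q0, ¬(j0 = y.j ∧ b ≤ q0 ∧ q0 < b + W) →
        (∀ c ∈ w y.i, c ≤ p → p < c + W → ¬(j0 = y.i ∧ c ≤ q0 ∧ q0 < c + W)) →
          (t' j0)[q0]? = (t j0)[q0]?)
    (hh : HitP M t' y p' (b' + B1)) : HitP M t y p' (b' + B1) := by
  obtain ⟨a, g1, g2, g3⟩ := hh
  have hj := rearr_loc hw ht ht' y.j (b' + B1) (by
    intro c hc hc1 hc2 q0 hq1 hq2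
    have e : c = b' := Hp_same hw hc hb' hc1 hc2 (by omega) (by omega)
    subst e
    refine (h y.j q0 ?_ ?_).symm
    · rintro ⟨-, k1, k2⟩
      exact hne (Hp_same hw hb hb' k1 k2 hq1 hq2)
    · rintro d hd d1 d2 ⟨k0, k1, k2⟩
      rw [← k0] at hd
      have e : d = c := Hp_same hw hd hb' k1 k2 hq1 hq2
      subst e
      exact h1 k0.symm ⟨d1, d2⟩)
  have hi := rearr_loc hw ht ht' y.i p' (by
    intro c hc hc1 hc2 q0 hq1 hq2
    refine (h y.i q0 ?_ ?_).symm
    · rintro ⟨k0, k1, k2⟩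
      rw [k0] at hc
      have e : c = b := Hp_same hw hc hb hq1 hq2 k1 k2
      subst e
      exact h2 k0 ⟨hc1, hc2⟩
    · rintro d hd d1 d2 ⟨-, k1, k2⟩
      have e : d = c := Hp_same hw hd hc k1 k2 hq1 hq2
      subst e
      rcases hw.disjoint y.j b hb b' hb' hne with h5 | h5 <;> omega)
  refine ⟨a, ?_, ?_, ?_⟩
  · rw [hi.2]
    exact g1
  · rw [hj.2]
    exact g2
  · rw [hi.1, hj.1]
    exact g3

end H30.PW
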