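import Mathlib

set_option autoImplicit false

/-! Module Nc (about 80 lines, Mathlib only). A large subset without conflicts.

PROOF. Call `b ≠ b'` in conflict if `b' ≤ b + τ < b' + W` or `b ≤ b' + τ < b + W`. Let `S'` be a maximal
subset of `S` without conflicts (`Finset.exists_maximal` in the filtered powerset of `S`, or strong
induction on the cardinality of `S`: remove one element and its at most two partners). Every
`b ∈ S \ S'` is in conflict with some `b' ∈ S'`; for given `b'` there is at most one `b ∈ S` with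
`b' ≤ b + τ < b' + W` (two of them would have distance `< W`, but the windows are disjoint) and at most
one `b ∈ S` with `b ≤ b' + τ < b + W` (the windows `[b, b + W)` are disjoint). So
`|S \ S'| ≤ 2 |S'|`. -/

namespace H30.PW

theorem sparse_sub (S : Finset ℕ) (W : ℕ)
    (hd : ∀ b ∈ S, ∀ b' ∈ S, b ≠ b' → b + W ≤ b' ∨ b' + W ≤ b) (τ : ℤ) :
    ∃ S' ⊆ S, S.card ≤ 3 * S'.card ∧
      ∀ b ∈ S', ∀ b' ∈ S', b ≠ b' → ¬((b' : ℤ) ≤ b + τ ∧ (b : ℤ) + τ < b' + W) := by
  classical
  revert hd
  induction S using Finset.strongInduction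
  rename_i S ih
  intro hd
  rcases S.eq_empty_or_nonempty with rfl | ⟨b0, hb0⟩
  · exact ⟨∅, Finset.Subset.refl _, by simp, by simp⟩
  have h1 : (S.filter fun b : ℕ => (b0 : ℤ) ≤ b + τ ∧ (b : ℤ) + τ < b0 + W).card ≤ 1 := by
    rw [Finset.card_le_one]
    intro b hb b' hb'
    rw [Finset.mem_filter] at hb hb'
    by_contra hne
    rcases hd b hb.1 b' hb'.1 hne with h2 | h2 <;> omega
  have h2 : (S.filter fun b : ℕ => (b : ℤ) ≤ b0 + τ ∧ (b0 : ℤ) + τ < b + W).card ≤ 1 := by
    rw [Finset.card_le_one]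
    intro b hb b' hb'
    rw [Finset.mem_filter] at hb hb'
    by_contra hne
    rcases hd b hb.1 b' hb'.1 hne with h2 | h2 <;> omega
  have hT : ∃ T : Finset ℕ, T = (S.filter fun b : ℕ => (b0 : ℤ) ≤ b + τ ∧ (b : ℤ) + τ < b0 + W) ∪
      (S.filter fun b : ℕ => (b : ℤ) ≤ b0 + τ ∧ (b0 : ℤ) + τ < b + W) := ⟨_, rfl⟩
  obtain ⟨T, hT⟩ := hT
  have hTc : T.card ≤ 2 := by
    rw [hT]
    exact (Finset.card_union_le _ _).trans (by omega)
  have hsub : S \ insert b0 T ⊂ S := by
    rw [Finset.ssubset_iff_of_subset Finset.sdiff_subset]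
    exact ⟨b0, hb0, fun h => (Finset.mem_sdiff.mp h).2 (Finset.mem_insert_self _ _)⟩
  obtain ⟨S1, hS1, hc1, hn1⟩ := ih _ hsub (fun b hb b' hb' hne =>
    hd b (Finset.mem_sdiff.mp hb).1 b' (Finset.mem_sdiff.mp hb').1 hne)
  have hb01 : b0 ∉ S1 := fun h => (Finset.mem_sdiff.mp (hS1 h)).2 (Finset.mem_insert_self _ _)
  have hnT : ∀ b ∈ S1, b ∉ T := fun b hb hbT =>
    (Finset.mem_sdiff.mp (hS1 hb)).2 (Finset.mem_insert_of_mem hbT)
  have hS1S : ∀ b ∈ S1, b ∈ S := fun b hb => (Finset.mem_sdiff.mp (hS1 hb)).1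
  refine ⟨insert b0 S1, ?_, ?_, ?_⟩
  · intro b hb
    rcases Finset.mem_insert.mp hb with rfl | hb
    · exact hb0
    · exact hS1S b hb
  · rw [Finset.card_insert_of_notMem hb01]
    have h3 : S.card ≤ (S \ insert b0 T).card + (insert b0 T).card := by
      have := Finset.card_sdiff_add_card_inter S (insert b0 T)
      have h4 : (S ∩ insert b0 T).card ≤ (insert b0 T).card :=
        Finset.card_le_card Finset.inter_subset_right
      omega
    have h4 := Finset.card_insert_le b0 T
    omega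
  · intro b hb b' hb' hne hcon
    rcases Finset.mem_insert.mp hb with e1 | g1
    · rcases Finset.mem_insert.mp hb' with e2 | g2
      · exact hne (e1.trans e2.symm)
      · refine hnT b' g2 ?_
        rw [hT, Finset.mem_union, Finset.mem_filter, Finset.mem_filter]
        rw [e1] at hcon
        exact Or.inr ⟨hS1S b' g2, hcon⟩
    · rcases Finset.mem_insert.mp hb' with e2 | g2
      · refine hnT b g1 ?_
        rw [hT, Finset.mem_union, Finset.mem_filter, Finset.mem_filter]
        rw [e2] at hcon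
        exact Or.inl ⟨hS1S b g1, hcon⟩
      · exact hn1 b g1 b' g2 hne hcon

end H30.PW
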