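import Pool.Agent.H30.PW.Rr

set_option autoImplicit false

/-! Module Rp (about 130 lines). Replacing the contents of one window.

PROOF of `rearr_repl`: `u.length = W` (the window is inside, `Perm.length_eq`), so `b + u.length ≤ (t j).length`.
`spl_length`, `spl_get_out` give length and the letters outside. Windows: for `b' ≠ b` the list
`(drop b').take W` of the new word equals the old one (`List.ext_getElem?`, `spl_get_out`, disjointness);
for `b' = b` it is `u` (`spl_get_in`). Other words are unchanged (`Function.update_of_ne`).
PROOF of `rearr_loc`: letter: if `q` is in a window `b` of `w j` this is `h`; otherwise both are the letter of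
`s`. Content: if `q` is in the window `b` (`b ≤ q < b + W`): `take q = take b ++ (drop b).take (q - b)`, the
contents of `take b` agree by `rearr_cont` (both equal to the one of `s`; `b` is not strictly inside a
window), the lists `(drop b).take (q - b)` are equal letter by letter. If `q` is in no window:
`rearr_cont` for both. -/

namespace H30.PW

open H61.PS H30.PM

variable {n : ℕ}

private lemma win_get {w w' : List (Fin n)} {b W : ℕ}
    (h : ∀ q, b ≤ q → q < b + W → w[q]? = w'[q]?) : (w.drop b).take W = (w'.drop b).take W := by
  apply List.ext_getElem?
  intro p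
  by_cases hp : p < W
  · rw [List.getElem?_take_of_lt hp, List.getElem?_take_of_lt hp, List.getElem?_drop,
      List.getElem?_drop]
    exact h (b + p) (Nat.le_add_right _ _) (by omega)
  · rw [List.getElem?_take_eq_none (not_lt.1 hp), List.getElem?_take_eq_none (not_lt.1 hp)]

theorem rearr_repl {s : Subst n} {W : ℕ} {w : Fin n → Finset ℕ} (hw : Windows s W w)
    {t : Subst n} (ht : t ∈ Rearr s W w) {j : Fin n} {b : ℕ} (hb : b ∈ w j) {u : List (Fin n)}
    (hu : u.Perm (((s j).drop b).take W)) :
    u.length = W ∧ b + u.length ≤ (t j).length ∧
      Function.update t j (spl (t j) b u) ∈ Rearr s W w := by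
  have hin := hw.inside j b hb
  have hul : u.length = W := by
    rw [hu.length_eq, List.length_take, List.length_drop]
    omega
  have hbl : b + u.length ≤ (t j).length := by
    rw [hul, (ht j).1]
    exact hin
  refine ⟨hul, hbl, ?_⟩
  intro k
  by_cases hk : k = j
  · subst hk
    rw [Function.update_self]
    refine ⟨?_, ?_, ?_⟩
    · rw [spl_length _ _ _ hbl]
      exact (ht k).1
    · intro q hq
      rw [spl_get_out _ _ _ hbl q (by rw [hul]; exact hq b hb)]
      exact (ht k).2.1 q hq
    · intro b' hb'
      by_cases hbb : b' = b
      · subst hbb
        have : ((spl (t k) b' u).drop b').take W = u := by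
          apply List.ext_getElem?
          intro p
          by_cases hp : p < W
          · rw [List.getElem?_take_of_lt hp, List.getElem?_drop]
            exact spl_get_in _ _ _ hbl p (by rw [hul]; exact hp)
          · rw [List.getElem?_take_eq_none (not_lt.1 hp), List.getElem?_eq_none]
            rw [hul]
            exact not_lt.1 hp
        rw [this]
        exact hu
      · have : ((spl (t k) b u).drop b').take W = ((t k).drop b').take W := by
          apply win_get
          intro q h1 h2
          apply spl_get_out _ _ _ hbl
          rw [hul]
          rcases hw.disjoint k b' hb' b hb hbb with h | h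
          · left
            omega
          · right
            omega
        rw [this]
        exact (ht k).2.2 b' hb'
  · rw [Function.update_of_ne hk]
    exact ht k

theorem rearr_loc {s : Subst n} {W : ℕ} {w : Fin n → Finset ℕ} (hw : Windows s W w)
    {t t' : Subst n} (ht : t ∈ Rearr s W w) (ht' : t' ∈ Rearr s W w) (j : Fin n) (q : ℕ)
    (h : ∀ b ∈ w j, b ≤ q → q < b + W → ∀ q', b ≤ q' → q' < b + W → (t j)[q']? = (t' j)[q']?) :
    cont ((t j).take q) = cont ((t' j).take q) ∧ (t j)[q]? = (t' j)[q]? := by
  by_cases hq : ∃ b ∈ w j, b ≤ q ∧ q < b + W
  · obtain ⟨b, hb, h1, h2⟩ := hq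
    have h3 := h b hb h1 h2
    refine ⟨?_, h3 q h1 h2⟩
    obtain ⟨k, rfl⟩ := Nat.exists_eq_add_of_le h1
    have hc : cont ((t j).take b) = cont ((t' j).take b) := by
      have hne : ∀ b' ∈ w j, b ≤ b' ∨ b' + W ≤ b := by
        intro b' hb'
        by_cases hbb : b' = b
        · left
          exact hbb.ge
        · rcases hw.disjoint j b' hb' b hb hbb with h' | h'
          · right
            exact h'
          · left
            omega
      rw [rearr_cont hw ht j b hne, rearr_cont hw ht' j b hne]
    have hl : ((t j).drop b).take k = ((t' j).drop b).take k := by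
      apply win_get
      intro q' h4 h5
      exact h3 q' h4 (by omega)
    rw [List.take_add, List.take_add, cont_append, cont_append, hc, hl]
  · have hno : ∀ b ∈ w j, q < b ∨ b + W ≤ q := by
      intro b hb
      by_contra hcon
      exact hq ⟨b, hb, by omega, by omega⟩
    refine ⟨?_, ?_⟩
    · have hno' : ∀ b ∈ w j, q ≤ b ∨ b + W ≤ q := by
        intro b hb
        rcases hno b hb with h' | h'
        · left
          exact h'.le
        · right
          exact h'
      rw [rearr_cont hw ht j q hno', rearr_cont hw ht' j q hno']
    · rw [(ht j).2.1 q hno, (ht' j).2.1 q hno]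

end H30.PW
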