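import Pool.Agent.H30.PM.Rer
import Pool.Agent.H30.PW.Rp

set_option autoImplicit false

/-! Module Sg (about 200 lines). The surgery which produces a coincidence in one window.

Write `σ = tau (act M y.v)`, `α = (s y.i)[p]` (`p < ml M y.i = (s y.i).length`).
STEP 1 (`face`): if some window `b' ∈ w y.i` contains `p` (`b' ≤ p < b' + W`), replace this window of `t` by
the window of `s` (`rearr_repl` with `u = ((s y.i).drop b').take W`), otherwise `t1 = t`. By `rearr_loc`
(with `s`) `cont ((t1 y.i).take p) = cont ((s y.i).take p)` and `(t1 y.i)[p]? = some α`. Two windows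
containing `p` are equal (disjointness), so only positions `q0` in a window containing `p` are changed.
STEP 2 (`block`): the new contents of the window `b ∈ w y.j`: put `z' = cont ((s y.i).take p) - act M y.v`,
`tau z' = p - σ = b + B1`, `dst z' ≤ C' + 1` (`dst_add, dst_neg`). `PathP` from `v0 = cont ((s y.j).take b)`
(`dst ≤ C' ≤ C0`, `tau = b`) to `z'` gives `w1`, of length `B1` (`tau_cont`); `PathP` from `z' + e_α`
(`dst ≤ C' + 2 ≤ C0`, `tau = b + B1 + 1`) to `v1 = cont ((s y.j).take (b + W))` (`tau = b + W`) gives `w2`, of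
length `W - B1 - 1`. `u = w1 ++ α :: w2` has content `v1 - v0`, which is the content of
`((s y.j).drop b).take W`, so it is a permutation of it (`List.perm_iff_count`).
STEP 3: `t' = update t1 y.j (spl (t1 y.j) b u)`. `t' ∈ Rearr` by `rearr_repl`. Position `p` of the word `y.i`
is not in the replaced window if `y.i = y.j` (`hself`), so `rearr_loc` (for `t'`, `t1` at `p`: a window
containing `p` is different from `b`, hence disjoint from it) keeps content and letter at `p`. At the
position `b + B1` of the word `y.j`: content `v0 + cont w1 = z'` (`spl_cont_in`; the content of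
`(t1 y.j).take b` is `v0` by `rearr_cont`), letter `α` (`spl_get_in`). -/

namespace H30.PW

open H61.PS H30.PM

variable {n : ℕ}

theorem block {r : Fin n → ℝ} (hr : ∃ i, r i ≠ 0) {C' C0 : ℝ} {B1 : ℕ} (hP : PathP r C0 B1)
    (hC : C' + 2 ≤ C0) {M : Matrix (Fin n) (Fin n) ℕ} {s : Subst n} (hs : s ∈ Bal r M C')
    {W : ℕ} (hW : 2 * B1 + 1 ≤ W) {j : Fin n} {b : ℕ} (hb : b + W ≤ ml M j) {z : Fin n → ℤ}
    (hz : tau z = b + B1) (hd : dst r z ≤ C' + 1) (α : Fin n) :
    ∃ u : List (Fin n), u.Perm (((s j).drop b).take W) ∧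
      cont ((s j).take b) + cont (u.take B1) = z ∧ u[B1]? = some α := by
  obtain ⟨hM, hC'⟩ := hs
  have hlen : (s j).length = ml M j := length_eq_ml hM j
  have tauP : ∀ q, q ≤ (s j).length → tau (cont ((s j).take q)) = q := by
    intro q hq
    rw [tau_cont, List.length_take, min_eq_left hq]
  -- the first half
  obtain ⟨w1, c1, -⟩ := hP (cont ((s j).take b)) z (by linarith [hC' j b]) (by linarith)
    (by rw [tauP b (by omega), hz])
  have l1 : w1.length = B1 := by
    have h := tau_cont w1
    rw [c1, tau_sub, hz, tauP b (by omega)] at h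
    omega
  -- the second half
  have dza : dst r (z + Pi.single α 1) ≤ C0 := by
    have h1 := dst_add r hr z (Pi.single α 1)
    have h2 := dst_single r α
    linarith
  have tza : tau (z + Pi.single α 1) = b + B1 + 1 := by
    rw [tau_add, tau_single, hz]
  obtain ⟨w2, c2, -⟩ := hP (z + Pi.single α 1) (cont ((s j).take (b + W))) dza
    (by linarith [hC' j (b + W)]) (by rw [tauP _ (by omega), tza]; push_cast; omega)
  have hsplit : cont ((s j).take b) + cont (((s j).drop b).take W) = cont ((s j).take (b + W)) := by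
    rw [List.take_add, cont_append]
  have cu : cont (w1 ++ α :: w2) = cont (((s j).drop b).take W) := by
    have e : cont (((s j).drop b).take W) = cont ((s j).take (b + W)) - cont ((s j).take b) := by
      rw [← hsplit]; abel
    rw [cont_append, cont_cons, c1, c2, e]
    abel
  refine ⟨w1 ++ α :: w2, ?_, ?_, ?_⟩
  · rw [List.perm_iff_count]
    intro i
    have h := congrFun cu i
    simp only [cont] at h
    exact_mod_cast h
  · rw [List.take_append_of_le_length (by omega),
      List.take_of_length_le (by omega : w1.length ≤ B1), c1]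
    abel
  · rw [List.getElem?_append_right (by omega), l1]
    simp

/-- Outside the replaced window nothing changes. -/
private theorem sg_out {t : Subst n} {j : Fin n} {b W : ℕ} {u : List (Fin n)}
    (hl : u.length = W) (hbu : b + u.length ≤ (t j).length) (j0 : Fin n) (q0 : ℕ)
    (h : ¬(j0 = j ∧ b ≤ q0 ∧ q0 < b + W)) :
    (Function.update t j (spl (t j) b u) j0)[q0]? = (t j0)[q0]? := by
  by_cases hj : j0 = j
  · subst hj
    rw [Function.update_self]
    refine spl_get_out _ _ _ hbu q0 ?_
    rw [hl]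
    by_contra hc
    push Not at hc
    exact h ⟨rfl, hc.1, hc.2⟩
  · rw [Function.update_of_ne hj]

/-- Put the window of `s` containing `p`, if there is one, back into the word `i`. -/
private theorem sg_face {s : Subst n} {W : ℕ} {w : Fin n → Finset ℕ} (hw : Windows s W w)
    {t : Subst n} (ht : t ∈ Rearr s W w) (i : Fin n) (p : ℕ) :
    ∃ t1 ∈ Rearr s W w, (t1 i)[p]? = (s i)[p]? ∧ cont ((t1 i).take p) = cont ((s i).take p) ∧
      ∀ j0 q0, (∀ b' ∈ w i, b' ≤ p → p < b' + W → ¬(j0 = i ∧ b' ≤ q0 ∧ q0 < b' + W)) →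
        (t1 j0)[q0]? = (t j0)[q0]? := by
  by_cases h : ∃ b' ∈ w i, b' ≤ p ∧ p < b' + W
  · obtain ⟨b', hb', h1, h2⟩ := h
    obtain ⟨hl, hbu, ht1⟩ := rearr_repl hw ht hb' (List.Perm.refl (((s i).drop b').take W))
    have hloc := rearr_loc hw ht1 (rearr_self s W w) i p (by
      intro b hb hb1 hb2 q' hq1 hq2
      have hbb : b = b' := by
        by_contra hne
        rcases hw.disjoint i b hb b' hb' hne with h3 | h3 <;> omega
      subst hbb
      rw [Function.update_self]
      obtain ⟨k, rfl⟩ := Nat.exists_eq_add_of_le hq1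
      rw [spl_get_in _ _ _ hbu k (by omega), List.getElem?_take_of_lt (by omega),
        List.getElem?_drop])
    exact ⟨_, ht1, hloc.2, hloc.1, fun j0 q0 h3 => sg_out hl hbu j0 q0 (h3 b' hb' h1 h2)⟩
  · have hloc := rearr_loc hw ht (rearr_self s W w) i p
      (fun b hb hb1 hb2 => absurd ⟨b, hb, hb1, hb2⟩ h)
    exact ⟨t, ht, hloc.2, hloc.1, fun _ _ _ => rfl⟩

theorem surgery {r : Fin n → ℝ} (hr : ∃ i, r i ≠ 0) {C' C0 : ℝ} {B1 : ℕ} (hP : PathP r C0 B1)
    (hC : C' + 2 ≤ C0) {M : Matrix (Fin n) (Fin n) ℕ} {s : Subst n} (hs : s ∈ Bal r M C')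
    {W : ℕ} (hW : 2 * B1 + 1 ≤ W) {w : Fin n → Finset ℕ} (hw : Windows s W w) {y : OT n}
    (hu : dst r (act M y.v) ≤ 1) {b : ℕ} (hb : b ∈ w y.j) {p : ℕ}
    (hp : (p : ℤ) = b + B1 + tau (act M y.v)) (hp2 : p < ml M y.i)
    (hself : y.i = y.j → p < b ∨ b + W ≤ p) {t : Subst n} (ht : t ∈ Rearr s W w) :
    ∃ t' ∈ Rearr s W w, HitP M t' y p (b + B1) ∧
      ∀ j0 q0, ¬(j0 = y.j ∧ b ≤ q0 ∧ q0 < b + W) →
        (∀ b' ∈ w y.i, b' ≤ p → p < b' + W → ¬(j0 = y.i ∧ b' ≤ q0 ∧ q0 < b' + W)) →
          (t' j0)[q0]? = (t j0)[q0]? := by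
  have hM := hs.1
  have hlen : (s y.i).length = ml M y.i := length_eq_ml hM y.i
  obtain ⟨α, hα⟩ : ∃ α, (s y.i)[p]? = some α :=
    ⟨_, List.getElem?_eq_getElem (by omega : p < (s y.i).length)⟩
  obtain ⟨t1, ht1, f1, f2, f3⟩ := sg_face hw ht y.i p
  have hbW : b + W ≤ ml M y.j := by
    rw [← length_eq_ml hM y.j]; exact hw.inside y.j b hb
  -- the vertex of the new window
  have tz : tau (cont ((s y.i).take p) - act M y.v) = b + B1 := by
    rw [tau_sub, tau_cont, List.length_take, min_eq_left (by omega)]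
    omega
  have dz : dst r (cont ((s y.i).take p) - act M y.v) ≤ C' + 1 := by
    have h1 := dst_add r hr (cont ((s y.i).take p)) (-(act M y.v))
    rw [← sub_eq_add_neg, dst_neg r hr] at h1
    linarith [hs.2 y.i p]
  obtain ⟨u, hperm, hu1, hu2⟩ := block hr hP hC hs hW hbW tz dz α
  obtain ⟨hl, hbu, ht'⟩ := rearr_repl hw ht1 hb hperm
  have hloc := rearr_loc hw ht' ht1 y.i p (by
    intro b'' hb'' h1 h2 q' h3 h4
    refine sg_out hl hbu y.i q' ?_
    rintro ⟨e, h5, h6⟩
    have h7 := hself e
    have hne : b ≠ b'' := by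
      rintro rfl
      omega
    rcases hw.disjoint y.j b hb b'' (e ▸ hb'') hne with h8 | h8 <;> omega)
  have hcb : cont ((t1 y.j).take b) = cont ((s y.j).take b) := by
    refine rearr_cont hw ht1 y.j b ?_
    intro b' hb'
    by_cases hne : b = b'
    · exact Or.inl hne.le
    · rcases hw.disjoint y.j b hb b' hb' hne with h8 | h8
      · left; omega
      · right; exact h8
  refine ⟨_, ht', ⟨α, ?_, ?_, ?_⟩, ?_⟩
  · rw [hloc.2, f1, hα]
  · rw [Function.update_self, spl_get_in _ _ _ hbu B1 (by omega), hu2]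
  · rw [hloc.1, f2, Function.update_self, spl_cont_in _ _ _ hbu B1 (by omega), hcb, hu1]
    abel
  · intro j0 q0 h1 h2
    rw [sg_out hl hbu j0 q0 h1, f3 j0 q0 h2]

end H30.PW
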