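import Pool.Agent.H30.PM.FinA
import Pool.Agent.H30.PW.Srv
import Pool.Agent.H30.PW.Sg
import Pool.Agent.H30.PW.Hp
import Pool.Agent.H30.PW.Ab
import Pool.Agent.H30.PW.Nc
import Pool.Agent.H30.PW.Fb

set_option autoImplicit false

/-! Most rearrangements inside many windows are good. -/

namespace H30.PW

open H61.PS H30.PM

variable {n : ℕ}

/-- For one served type: the proportion of the rearrangements without coincidence. -/
theorem one_type {r : Fin n → ℝ} (hn : 0 < n) (hr : ∃ i, r i ≠ 0) {C' C0 : ℝ} {B1 : ℕ}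
    (hP : PathP r C0 B1) (hC : C' + 2 ≤ C0) {M : Matrix (Fin n) (Fin n) ℕ} {s : Subst n}
    (hs : s ∈ Bal r M C') {W : ℕ} (hW : 2 * B1 + 1 ≤ W) {w : Fin n → Finset ℕ}
    (hw : Windows s W w) {y : OT n} (hu : dst r (act M y.v) ≤ 1)
    (hself : y.i = y.j → ((W + B1 : ℕ) : ℤ) ≤ |tau (act M y.v)|) :
    (({t | t ∈ Rearr s W w ∧ ∀ p q, ¬ HitP M t y p q}.ncard : ℕ) : ℝ) ≤
      (1 - 1 / ((n ^ (2 * W) : ℕ) : ℝ)) ^
        (((srv M (fun j => (w j).image (· + B1)) y).card + 2) / 3) *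
          (((Rearr s W w).ncard : ℕ) : ℝ) := by
  classical
  obtain ⟨σ, hσ⟩ : ∃ σ, σ = tau (act M y.v) := ⟨_, rfl⟩
  -- the windows which are served
  obtain ⟨S, hS⟩ : ∃ S : Finset ℕ, S = (w y.j).filter fun b : ℕ =>
    0 ≤ (b : ℤ) + B1 + σ ∧ (b : ℤ) + B1 + σ < (ml M y.i : ℤ) := ⟨_, rfl⟩
  have hSm : ∀ b, b ∈ S ↔ b ∈ w y.j ∧ 0 ≤ (b : ℤ) + B1 + σ ∧
      (b : ℤ) + B1 + σ < (ml M y.i : ℤ) := by
    intro b
    rw [hS, Finset.mem_filter]
  have hScard : (srv M (fun j => (w j).image (· + B1)) y).card = S.card := by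
    refine (Finset.card_bij (fun b _ => b + B1) (fun b hb => ?_) (fun b _ b' _ h => by omega)
      (fun p hp => ?_)).symm
    · obtain ⟨h1, h2, h3⟩ := (hSm b).1 hb
      unfold srv
      rw [Finset.mem_filter, Finset.mem_image, ← hσ]
      exact ⟨⟨b, h1, rfl⟩, by push_cast; exact h2, by push_cast; exact h3⟩
    · unfold srv at hp
      rw [Finset.mem_filter, Finset.mem_image, ← hσ] at hp
      obtain ⟨⟨b, h1, rfl⟩, h2, h3⟩ := hp
      push_cast at h2 h3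
      exact ⟨b, (hSm b).2 ⟨h1, h2, h3⟩, rfl⟩
  obtain ⟨S', hS'S, hS'c, hS'n⟩ := sparse_sub S W (fun b hb b' hb' hne =>
    hw.disjoint y.j b ((hSm b).1 hb).1 b' ((hSm b').1 hb').1 hne) (B1 + σ)
  obtain ⟨pp, hpp⟩ : ∃ pp : ℕ → ℕ, pp = fun b : ℕ => ((b : ℤ) + B1 + σ).toNat := ⟨_, rfl⟩
  have hpz : ∀ b ∈ S, (pp b : ℤ) = (b : ℤ) + B1 + σ := by
    intro b hb
    rw [hpp]
    exact Int.toNat_of_nonneg ((hSm b).1 hb).2.1
  have hpl : ∀ b ∈ S, pp b < ml M y.i := by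
    intro b hb
    have h1 := ((hSm b).1 hb).2.2
    rw [← hpz b hb] at h1
    exact_mod_cast h1
  have hps : ∀ b ∈ S, y.i = y.j → pp b < b ∨ b + W ≤ pp b := by
    intro b hb hij
    have h1 := hself hij
    rw [← hσ] at h1
    push_cast at h1
    have h2 := hpz b hb
    rcases abs_cases σ with h3 | h3 <;> omega
  -- the surgery
  have hsur : ∀ b ∈ S, ∀ t ∈ Rearr s W w, ∃ t' ∈ Rearr s W w, HitP M t' y (pp b) (b + B1) ∧
      ∀ j0 q0, ¬(j0 = y.j ∧ b ≤ q0 ∧ q0 < b + W) →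
        (∀ b' ∈ w y.i, b' ≤ pp b → pp b < b' + W → ¬(j0 = y.i ∧ b' ≤ q0 ∧ q0 < b' + W)) →
          (t' j0)[q0]? = (t j0)[q0]? := by
    intro b hb t ht
    exact surgery hr hP hC hs hW hw hu ((hSm b).1 hb).1 (by rw [← hσ]; exact hpz b hb) (hpl b hb)
      (hps b hb) ht
  choose! G hG1 hG2 hG3 using hsur
  have hcount := abs_count (Rearr s W w) (rearr_finite s W w) S'
    (fun b t => HitP M t y (pp b) (b + B1)) G (n ^ (2 * W)) (by positivity)
    (fun b hb t ht => hG1 b (hS'S hb) t ht) (fun b hb t ht => hG2 b (hS'S hb) t ht)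
    (by
      intro b hb b' hb' hne t ht hh
      have hbS := hS'S hb
      have hbS' := hS'S hb'
      refine hit_keep hw (M := M) (y := y) (B1 := B1) (by omega) ((hSm b).1 hbS).1
        ((hSm b').1 hbS').1 hne (p := pp b) (p' := pp b') (by rw [← hσ]; exact hpz b hbS)
        (by rw [← hσ]; exact hpz b' hbS') (fun _ h => ?_) (fun _ h => ?_) ht (hG1 b hbS t ht)
        (hG3 b hbS t ht) hh
      · refine hS'n b hb b' hb' hne ⟨?_, ?_⟩
        · have := hpz b hbS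
          have h1 : (b' : ℤ) ≤ pp b := by exact_mod_cast h.1
          linarith
        · have := hpz b hbS
          have h1 : (pp b : ℤ) < b' + W := by exact_mod_cast h.2
          linarith
      · refine hS'n b' hb' b hb (Ne.symm hne) ⟨?_, ?_⟩
        · have := hpz b' hbS'
          have h1 : (b : ℤ) ≤ pp b' := by exact_mod_cast h.1
          linarith
        · have := hpz b' hbS'
          have h1 : (pp b' : ℤ) < b + W := by exact_mod_cast h.2
          linarith)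
    (by
      intro b hb u
      have hbS := hS'S hb
      have hmat : ∀ t ∈ Rearr s W w, HasMatrix t M := fun t ht => rearr_matrix hw hs.1 ht
      by_cases hex : ∃ c ∈ w y.i, c ≤ pp b ∧ pp b < c + W
      · obtain ⟨c, hc, hc1, hc2⟩ := hex
        refine fib hn hmat (G b) W y.i y.j c b ?_ u
        intro t ht j0 q0 h1 h2
        refine hG3 b hbS t ht j0 q0 h1 ?_
        intro c' hc' h3 h4 h5
        have : c' = c := by
          by_contra hne
          rcases hw.disjoint y.i c' hc' c hc hne with h6 | h6 <;> omega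
        rw [this] at h5
        exact h2 h5
      · push Not at hex
        refine fib hn hmat (G b) W y.i y.j 0 b ?_ u
        intro t ht j0 q0 h1 _
        refine hG3 b hbS t ht j0 q0 h1 ?_
        intro c' hc' h3 h4 _
        have := hex c' hc' h3
        omega)
  have hsub : {t | t ∈ Rearr s W w ∧ ∀ p q, ¬ HitP M t y p q} ⊆
      {t | t ∈ Rearr s W w ∧ ∀ b ∈ S', ¬ HitP M t y (pp b) (b + B1)} := by
    rintro t ⟨h1, h2⟩
    exact ⟨h1, fun b _ => h2 _ _⟩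
  have hle : (({t | t ∈ Rearr s W w ∧ ∀ p q, ¬ HitP M t y p q}.ncard : ℕ) : ℝ) ≤
      (({t | t ∈ Rearr s W w ∧ ∀ b ∈ S', ¬ HitP M t y (pp b) (b + B1)}.ncard : ℕ) : ℝ) := by
    exact_mod_cast Set.ncard_le_ncard hsub
      ((rearr_finite s W w).subset fun t ht => ht.1)
  refine hle.trans (hcount.trans ?_)
  refine mul_le_mul_of_nonneg_right ?_ (Nat.cast_nonneg _)
  have h1 : (1 : ℝ) ≤ ((n ^ (2 * W) : ℕ) : ℝ) := by
    exact_mod_cast Nat.one_le_iff_ne_zero.2 (by positivity)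
  refine pow_le_pow_of_le_one ?_ ?_ ?_
  · rw [sub_nonneg, div_le_one (by linarith)]
    exact h1
  · have : 0 ≤ 1 / ((n ^ (2 * W) : ℕ) : ℝ) := by positivity
    linarith
  · rw [hScard]
    omega

/-- Most rearrangements inside many windows are good. -/
theorem many_w {l : Fin n → ℝ} {N : (Fin n → ℤ) → ℝ} {A : ℝ} {r : Fin n → ℝ} (hn : 0 < n)
    (F : Fr l N A r) (hl : ∀ i, 0 < l i) (hlin : LinearIndependent ℚ l) (C' : ℝ) (hC' : 1 ≤ C') :
    ∃ W1 : ℕ, ∀ W, W1 ≤ W → ∃ θ : ℝ, 0 < θ ∧ ∃ c : ℝ, 0 < c ∧ ∃ A0 : ℝ, ∃ L1 : ℝ,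
      ∀ (M : Matrix (Fin n) (Fin n) ℕ) (L : ℝ), PisotInflation l M L → 1 < L → L1 ≤ L →
      (∀ z : ℂ, (M.map (Nat.cast : ℕ → ℂ)).charpoly.IsRoot z → z ≠ (L : ℂ) → ‖z‖ ≤ θ) →
      ∀ s ∈ Bal r M C', ∀ w : Fin n → Finset ℕ, Windows s W w → ∀ m : ℕ, 1 ≤ m →
        (∀ j, m ≤ (w j).card) →
        (({t | t ∈ Rearr s W w ∧ ¬ Good l M t}.ncard : ℕ) : ℝ) ≤
          A0 * Real.exp (-(c * m)) * (((Rearr s W w).ncard : ℕ) : ℝ) := by
  classical
  have hr : ∃ i, r i ≠ 0 := ⟨⟨0, hn⟩, (F.rpos _).ne'⟩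
  have hA := F.A1
  have hn1 : (1 : ℝ) ≤ n := by exact_mod_cast hn
  obtain ⟨C1, hC1⟩ := path hn r F.rpos
  obtain ⟨C0, hC0def⟩ : ∃ C0, C0 = max C1 (C' + 2) := ⟨_, rfl⟩
  have hCa : C1 ≤ C0 := by rw [hC0def]; exact le_max_left _ _
  have hCb : C' + 2 ≤ C0 := by rw [hC0def]; exact le_max_right _ _
  obtain ⟨B1, hB1⟩ := hC1 C0 hCa
  refine ⟨2 * B1 + 1, fun W hW => ?_⟩
  obtain ⟨C, hC⟩ : ∃ C, C = C' + W := ⟨_, rfl⟩
  have hW0 : (0 : ℝ) ≤ W := Nat.cast_nonneg _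
  have hCpos : 1 ≤ C := by rw [hC]; linarith
  obtain ⟨K, hK⟩ : ∃ K, K = 4 * (A * (n * C)) + 1 := ⟨_, rfl⟩
  have hAn : 1 ≤ A * n := by nlinarith
  have hK1 : 1 ≤ K := by
    rw [hK]
    have : 0 ≤ A * (n * C) := by positivity
    linarith
  obtain ⟨Q, hQ, L1, hserv⟩ := served hn F hl hlin C
  obtain ⟨ρ, hρ, L2, hlong⟩ := long hn F hl hlin K
  obtain ⟨X, hX⟩ : ∃ X : Finset (OT n), X = (win_finite F hl K).toFinset.filter
    fun x => ¬(x.i = x.j ∧ x.v = 0) := ⟨_, rfl⟩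
  have hXm : ∀ x, x ∈ X ↔ x ∈ Win l N K ∧ ¬(x.i = x.j ∧ x.v = 0) := by
    intro x
    rw [hX, Finset.mem_filter, Set.Finite.mem_toFinset]
  obtain ⟨κ, hκ⟩ : ∃ κ : ℝ, κ = 1 / ((n ^ (2 * W) : ℕ) : ℝ) := ⟨_, rfl⟩
  have hpw : (1 : ℝ) ≤ ((n ^ (2 * W) : ℕ) : ℝ) := by
    exact_mod_cast Nat.one_le_iff_ne_zero.2 (by positivity)
  have hκ0 : 0 < κ := by rw [hκ]; positivity
  have hκ1 : κ ≤ 1 := by
    rw [hκ, div_le_one (by linarith)]
    exact hpw
  have hQ0 : (0 : ℝ) < Q := by exact_mod_cast hQ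
  refine ⟨min (1 / 2) (1 / (n * (A * K))), by positivity, κ / (3 * Q), by positivity, X.card,
    max L1 (max L2 ((W + B1 : ℕ) / ρ)), ?_⟩
  intro M L hP hL hLL hθ s hs w hw m hm hwm
  have hLa : L1 ≤ L := (le_max_left _ _).trans hLL
  have hLb : L2 ≤ L := (le_max_left _ _).trans ((le_max_right _ _).trans hLL)
  have hLc : ((W + B1 : ℕ) : ℝ) / ρ ≤ L := (le_max_right _ _).trans ((le_max_right _ _).trans hLL)
  have hθ2 : ∀ z : ℂ, (M.map (Nat.cast : ℕ → ℂ)).charpoly.IsRoot z → z ≠ (L : ℂ) →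
      ‖z‖ ≤ 1 / 2 := fun z h1 h2 => (hθ z h1 h2).trans (min_le_left _ _)
  have hθ3 : ∀ z : ℂ, (M.map (Nat.cast : ℕ → ℂ)).charpoly.IsRoot z → z ≠ (L : ℂ) →
      ‖z‖ ≤ 1 / (n * (A * K)) := fun z h1 h2 => (hθ z h1 h2).trans (min_le_right _ _)
  obtain ⟨P, hPdef⟩ : ∃ P : Fin n → Finset ℕ, P = fun j => (w j).image (· + B1) := ⟨_, rfl⟩
  have hlen : ∀ j, (s j).length = ml M j := fun j => length_eq_ml hs.1 j
  have hPlt : ∀ j, ∀ p ∈ P j, p < ml M j := by
    intro j p hp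
    rw [hPdef, Finset.mem_image] at hp
    obtain ⟨b, hb, rfl⟩ := hp
    have h1 := hw.inside j b hb
    rw [hlen] at h1
    omega
  have hPm : ∀ j, m ≤ (P j).card := by
    intro j
    rw [hPdef]
    simp only
    rw [Finset.card_image_of_injective _ (add_left_injective B1)]
    exact hwm j
  obtain ⟨Y, hY⟩ : ∃ Y : Finset (OT n), Y = X.filter fun y => m ≤ Q * (srv M P y).card :=
    ⟨_, rfl⟩
  have hYm : ∀ y, y ∈ Y ↔ y ∈ X ∧ m ≤ Q * (srv M P y).card := by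
    intro y
    rw [hY, Finset.mem_filter]
  have hYX : Y.card ≤ X.card := by
    rw [hY]
    exact Finset.card_filter_le _ _
  have hfin := rearr_finite s W w
  have hsub : {t | t ∈ Rearr s W w ∧ ¬ Good l M t} ⊆
      ⋃ y ∈ Y, {t | t ∈ Rearr s W w ∧ ∀ p q, ¬ HitP M t y p q} := by
    rintro t ⟨ht, hg⟩
    by_contra hcon
    simp only [Set.mem_iUnion, Set.mem_ofPred_eq, not_exists, not_and, not_forall,
      not_not] at hcon
    apply hg
    have htB : t ∈ Bal r M C := by rw [hC]; exact rearr_bal hr hw hs ht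
    refine good_of_srv hn F hl hP hL hθ2 htB (hserv M L hP hL hLa hθ2 t htB P m hm hPlt hPm) ?_
    intro y hy hyc hym
    rw [← hK] at hy
    obtain ⟨p, q, hpq⟩ := hcon y ((hYm y).2 ⟨(hXm y).2 ⟨hy, hyc⟩, hym⟩) ht
    exact child_of_hitP hl hpq
  have h1 : ({t | t ∈ Rearr s W w ∧ ¬ Good l M t}.ncard) ≤
      ∑ y ∈ Y, {t | t ∈ Rearr s W w ∧ ∀ p q, ¬ HitP M t y p q}.ncard := by
    refine (Set.ncard_le_ncard hsub ?_).trans (Finset.set_ncard_biUnion_le _ _)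
    exact hfin.subset (by
      intro t ht
      simp only [Set.mem_iUnion, Set.mem_ofPred_eq] at ht
      obtain ⟨x, hx, h, _⟩ := ht
      exact h)
  have h2 : ∀ y ∈ Y, (({t | t ∈ Rearr s W w ∧ ∀ p q, ¬ HitP M t y p q}.ncard : ℕ) : ℝ) ≤
      Real.exp (-(κ / (3 * Q) * m)) * (((Rearr s W w).ncard : ℕ) : ℝ) := by
    intro y hy
    obtain ⟨hyX, hym⟩ := (hYm y).1 hy
    obtain ⟨hyW, hyc⟩ := (hXm y).1 hyX
    have hu : dst r (act M y.v) ≤ 1 := by
      refine (dst_le_N F _).trans ?_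
      have h3 := F.contr M L hP hL _ hθ3 y.v
      have h4 : N (act M y.v) ≤ 1 / (n * (A * K)) * K :=
        h3.trans (mul_le_mul_of_nonneg_left hyW.2 (by positivity))
      have h5 : (n : ℝ) * (A * N (act M y.v)) ≤ n * (A * (1 / (n * (A * K)) * K)) :=
        mul_le_mul_of_nonneg_left (mul_le_mul_of_nonneg_left h4 (by linarith)) (by linarith)
      refine h5.trans (le_of_eq ?_)
      have e1 : (n : ℝ) ≠ 0 := by positivity
      have e2 : A ≠ 0 := by positivity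
      have e3 : K ≠ 0 := by positivity
      field_simp
    have hself : y.i = y.j → ((W + B1 : ℕ) : ℤ) ≤ |tau (act M y.v)| := by
      intro hij
      obtain ⟨lo, R, hR, hS⟩ := hlong M L hP hL hLb y hyW hyc
      have h3 := hS.h4 hij
      have h4 : ((W + B1 : ℕ) : ℝ) ≤ R := by
        have h5 : ((W + B1 : ℕ) : ℝ) ≤ L * ρ := (div_le_iff₀ hρ).1 hLc
        linarith
      have h5 : W + B1 ≤ R := by exact_mod_cast h4
      exact le_trans (by exact_mod_cast h5) h3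
    refine (one_type hn hr hB1 hCb hs hW hw hu hself).trans ?_
    refine mul_le_mul_of_nonneg_right ?_ (Nat.cast_nonneg _)
    rw [← hPdef, ← hκ]
    have h3 : (1 - κ) ^ (((srv M P y).card + 2) / 3) ≤
        Real.exp (-κ) ^ (((srv M P y).card + 2) / 3) :=
      pow_le_pow_left₀ (by linarith) (Real.one_sub_le_exp_neg κ) _
    refine h3.trans ?_
    rw [← Real.exp_nat_mul, Real.exp_le_exp]
    have h4 : m ≤ Q * (3 * (((srv M P y).card + 2) / 3)) :=
      hym.trans (Nat.mul_le_mul_left _ (by omega))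
    have h5 : (m : ℝ) ≤ Q * (3 * (((((srv M P y).card + 2) / 3 : ℕ)) : ℝ)) := by
      exact_mod_cast h4
    have h6 : κ / (3 * Q) * m ≤ κ / (3 * Q) * (Q * (3 * (((((srv M P y).card + 2) / 3 : ℕ)) : ℝ))) :=
      mul_le_mul_of_nonneg_left h5 (by positivity)
    have h7 : κ / (3 * Q) * (Q * (3 * (((((srv M P y).card + 2) / 3 : ℕ)) : ℝ))) =
        (((((srv M P y).card + 2) / 3 : ℕ)) : ℝ) * κ := by
      field_simp
    linarith
  refine (Nat.cast_le.2 h1).trans ?_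
  rw [Nat.cast_sum]
  refine (Finset.sum_le_sum h2).trans ?_
  rw [Finset.sum_const, nsmul_eq_mul, ← mul_assoc]
  have h3 : (Y.card : ℝ) ≤ X.card := by exact_mod_cast hYX
  refine mul_le_mul_of_nonneg_right ?_ (Nat.cast_nonneg _)
  exact mul_le_mul_of_nonneg_right h3 (Real.exp_nonneg _)

end H30.PW
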