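import Pool.Agent.H30.PM.FinC
import Pool.Agent.H30.PM.Lin
import Pool.Agent.H30.PW.EM
import Pool.Agent.H30.PW.PMain

set_option autoImplicit false

/-! Assembly: rearrangements inside windows of the iterates of a Pisot inflation rule. -/

namespace H30.PW

open H61.PS H30.PM

variable {n : ℕ}

theorem windows_iter {l : Fin n → ℝ} (hl : ∀ i, 0 < l i) {M : Matrix (Fin n) (Fin n) ℕ} {L : ℝ}
    (hL : 1 < L) (hP : PisotInflation l M L) {s : Subst n} (hs : HasMatrix s M) :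
    ∃ W0 : ℕ, ∀ W, W0 ≤ W → ∃ c : ℝ, 0 < c ∧ ∃ (A0 : ℝ) (k0 : ℕ), 1 ≤ k0 ∧ ∀ k, k0 ≤ k →
      PisotInflation l (M ^ k) (L ^ k) ∧
      ∀ (w : Fin n → Finset ℕ) (m : ℕ), Windows (iter s k) W w → 1 ≤ m →
        (∀ j, m ≤ (w j).card) →
        (∃ t ∈ Rearr (iter s k) W w, Good l (M ^ k) t) ∧
        (({t | t ∈ Rearr (iter s k) W w ∧ ¬ Good l (M ^ k) t}.ncard : ℕ) : ℝ) ≤
          A0 * Real.exp (-(c * m)) * (((Rearr (iter s k) W w).ncard : ℕ) : ℝ) := by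
  have hn := n_pos hP
  have hlin := linIndep hl hP
  obtain ⟨N, A, r, F, -⟩ := exists_fr hl hlin hP hL
  have hA := F.A1
  have hn1 : (1 : ℝ) ≤ n := by exact_mod_cast hn
  obtain ⟨C1, hC1⟩ := iter_bound F hP hL hs
  obtain ⟨W0, h0⟩ := modify_w hn F hl hlin (max C1 1)
  obtain ⟨W1, h1⟩ := many_w hn F hl hlin (max C1 1) (le_max_right _ _)
  refine ⟨max W0 W1, fun W hW => ?_⟩
  obtain ⟨L0, h0⟩ := h0 W ((le_max_left _ _).trans hW)
  obtain ⟨θ, hθ, c, hc, A0, L1, h1⟩ := h1 W ((le_max_right _ _).trans hW)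
  obtain ⟨k0, hk0, hk⟩ := eventually_small hl hP hL (max L0 L1)
    (min θ (1 / (32 * (A * n) ^ 2))) (by positivity)
  refine ⟨c, hc, A0, k0, hk0, fun k hkk => ?_⟩
  obtain ⟨g1, g2, g3, g4⟩ := hk k hkk
  have hmat := hasMatrix_iter hs k
  have hbal : iter s k ∈ Bal r (M ^ k) (max C1 1) :=
    ⟨hmat, fun j p => (hC1 k j p).trans (le_max_left _ _)⟩
  refine ⟨g1, fun w m hw hm hwm => ⟨?_, ?_⟩⟩
  · have hne : ∀ j, ∃ b, b ∈ w j := fun j =>
      Finset.card_pos.1 (lt_of_lt_of_le hm (hwm j))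
    choose β hβ using hne
    obtain ⟨t, ht1, ht2, ht3⟩ := h0 (M ^ k) (L ^ k) g1 g2 ((le_max_left _ _).trans g3)
      (fun z hz hz' => (g4 z hz hz').trans (min_le_right _ _)) (iter s k) hbal β (fun j => by
        rw [← length_eq_ml hmat]
        exact hw.inside j _ (hβ j))
    exact ⟨t, rearr_of_one hw hmat ht1 β hβ ht2, ht3⟩
  · exact h1 (M ^ k) (L ^ k) g1 g2 ((le_max_right _ _).trans g3)
      (fun z hz hz' => (g4 z hz hz').trans (min_le_left _ _)) (iter s k) hbal w hw m hm hwm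

end H30.PW
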