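import Pool.Agent.H30.PM.Cnt
import Pool.Agent.H30.PW.Defs

set_option autoImplicit false

/-! Module Rr (about 170 lines). Basic properties of the rearrangements.

PROOF of `rearr_cont`: strong induction on `q`. `q = 0`: both are `cont []`. Let `q = q1 + 1`. If `q1` is
outside all windows then `q1` is not strictly inside a window either, and the letters at `q1` agree
(`List.take_succ`, `[q1]?`). If `q1` is in the window `b ∈ w j` (`b ≤ q1 < b + W`), then `q = b + W` by `hq`;
`b` is not strictly inside another window (`Windows.disjoint`), so the contents of `take b` agree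
(induction, `b < q`), and `take (b + W) = take b ++ (drop b).take W` (`List.take_add`) with
`List.Perm.count_eq`.
PROOF of `rearr_matrix`: `rearr_cont` for `q = length` (windows are inside), `List.take_length`,
`cont (t j) = cont (s j)`, counts.
PROOF of `rearr_bal`: for `q` not strictly inside a window: `rearr_cont`. If `b < q < b + W`: the content of
`take q` is the one of `take b` plus the one of a word with `q - b ≤ W` letters: `dst_add, dst_cont`. (For
`q > length` replace `q` by the length: `List.take_of_length_le`.)
PROOF of `rearr_finite`: words of given length over `Fin n`: as `bal_finite` in PM/Cnt.lean.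
PROOF of `rearr_of_one`: outside the windows clear. For a window `b' ≠ β j` the two windows are
disjoint, so the two lists `(drop b').take W` are equal (`List.ext_getElem?`, `List.getElem?_take`,
`List.getElem?_drop`). For `b' = β j`: `List.perm_iff_count`: total count equal (`HasMatrix`), the parts
`take b` and `drop (b + W)` are equal lists. -/

namespace H30.PW

open H61.PS H30.PM

variable {n : ℕ}

private theorem Rr_perm {u v : List (Fin n)} (h : u.Perm v) : cont u = cont v := by
  funext i
  show ((u.count i : ℕ) : ℤ) = ((v.count i : ℕ) : ℤ)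
  rw [h.count_eq]

private theorem Rr_start {s : Subst n} {W : ℕ} {w : Fin n → Finset ℕ} (hw : Windows s W w)
    {j : Fin n} {b : ℕ} (hb : b ∈ w j) : ∀ b' ∈ w j, b ≤ b' ∨ b' + W ≤ b := by
  intro b' hb'
  by_cases h : b = b'
  · exact Or.inl h.le
  · rcases hw.disjoint j b hb b' hb' h with h1 | h1
    · exact Or.inl (by omega)
    · exact Or.inr h1

theorem rearr_self (s : Subst n) (W : ℕ) (w : Fin n → Finset ℕ) : s ∈ Rearr s W w :=
  fun _ => ⟨rfl, fun _ _ => rfl, fun _ _ => List.Perm.refl _⟩

theorem rearr_cont {s : Subst n} {W : ℕ} {w : Fin n → Finset ℕ} (hw : Windows s W w)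
    {t : Subst n} (ht : t ∈ Rearr s W w) (j : Fin n) (q : ℕ)
    (hq : ∀ b ∈ w j, q ≤ b ∨ b + W ≤ q) : cont ((t j).take q) = cont ((s j).take q) := by
  obtain ⟨-, hout, hin⟩ := ht j
  induction q using Nat.strong_induction_on with
  | _ q ih =>
    rcases q with _ | q
    · simp
    · by_cases h : ∃ b ∈ w j, b ≤ q ∧ q < b + W
      · obtain ⟨b, hb, h1, h2⟩ := h
        have h3 : q + 1 = b + W := by
          rcases hq b hb with h3 | h3 <;> omega
        have h4 := ih b (by omega) (Rr_start hw hb)
        rw [h3, List.take_add, List.take_add, cont_append, cont_append, h4,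
          Rr_perm (hin b hb)]
      · push Not at h
        have h4 := ih q (by omega) (fun b hb => by
          rcases hq b hb with h3 | h3
          · exact Or.inl (by omega)
          · by_cases h5 : b ≤ q
            · exact Or.inr (h b hb h5)
            · exact Or.inl (by omega))
        have h5 := hout q (fun b hb => by
          by_cases h5 : b ≤ q
          · exact Or.inr (h b hb h5)
          · exact Or.inl (by omega))
        rw [List.take_add_one, List.take_add_one, cont_append, cont_append, h4, h5]

theorem rearr_matrix {s : Subst n} {W : ℕ} {w : Fin n → Finset ℕ} (hw : Windows s W w)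
    {M : Matrix (Fin n) (Fin n) ℕ} (hs : HasMatrix s M) {t : Subst n} (ht : t ∈ Rearr s W w) :
    HasMatrix t M := by
  intro i j
  have h1 := rearr_cont hw ht j (s j).length (fun b hb => Or.inr (hw.inside j b hb))
  rw [List.take_length, ← (ht j).1, List.take_length] at h1
  have h2 : (((t j).count i : ℕ) : ℤ) = (((s j).count i : ℕ) : ℤ) := congrFun h1 i
  rw [← hs i j]
  exact_mod_cast h2

theorem rearr_bal {r : Fin n → ℝ} (hr : ∃ i, r i ≠ 0) {s : Subst n} {W : ℕ}
    {w : Fin n → Finset ℕ} (hw : Windows s W w) {M : Matrix (Fin n) (Fin n) ℕ} {C : ℝ}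
    (hs : s ∈ Bal r M C) {t : Subst n} (ht : t ∈ Rearr s W w) : t ∈ Bal r M (C + W) := by
  refine ⟨rearr_matrix hw hs.1 ht, fun j p => ?_⟩
  by_cases h : ∃ b ∈ w j, b < p ∧ p < b + W
  · obtain ⟨b, hb, h1, h2⟩ := h
    obtain ⟨k, rfl⟩ : ∃ k, p = b + k := ⟨p - b, by omega⟩
    rw [List.take_add, cont_append]
    refine (dst_add r hr _ _).trans ?_
    rw [rearr_cont hw ht j b (Rr_start hw hb)]
    have h3 := hs.2 j b
    have h4 := dst_cont r hr (((t j).drop b).take k)
    have h5 : ((((t j).drop b).take k).length : ℝ) ≤ W := by
      have h6 : (((t j).drop b).take k).length ≤ k := List.length_take_le _ _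
      exact_mod_cast (by omega : (((t j).drop b).take k).length ≤ W)
    linarith
  · push Not at h
    rw [rearr_cont hw ht j p (fun b hb => by
      by_cases h5 : b < p
      · exact Or.inr (h b hb h5)
      · exact Or.inl (by omega))]
    have h3 := hs.2 j p
    have h4 : (0 : ℝ) ≤ W := Nat.cast_nonneg _
    linarith

theorem rearr_finite (s : Subst n) (W : ℕ) (w : Fin n → Finset ℕ) : (Rearr s W w).Finite := by
  refine (Set.Finite.pi' (ι := Fin n) (t := fun j => {u : List (Fin n) | u.length = (s j).length})
    fun j => List.finite_length_eq (Fin n) (s j).length).subset ?_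
  intro t ht j
  exact (ht j).1

theorem rearr_of_one {s : Subst n} {W : ℕ} {w : Fin n → Finset ℕ} (hw : Windows s W w)
    {M : Matrix (Fin n) (Fin n) ℕ} (hs : HasMatrix s M) {t : Subst n} (ht : HasMatrix t M)
    (β : Fin n → ℕ) (hβ : ∀ j, β j ∈ w j)
    (h : ∀ j q, q < β j ∨ β j + W ≤ q → (t j)[q]? = (s j)[q]?) : t ∈ Rearr s W w := by
  intro j
  have hlen : (t j).length = (s j).length := by
    rw [length_eq_ml ht, length_eq_ml hs]
  refine ⟨hlen, fun q hq => h j q (hq (β j) (hβ j)), fun b hb => ?_⟩
  by_cases hbe : b = β j
  · rw [List.perm_iff_count]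
    intro a
    have e1 : (t j).take b = (s j).take b := by
      refine List.ext_getElem? fun q => ?_
      rw [List.getElem?_take, List.getElem?_take]
      split_ifs with hq
      · exact h j q (Or.inl (by omega))
      · rfl
    have e2 : (t j).drop (b + W) = (s j).drop (b + W) := by
      refine List.ext_getElem? fun q => ?_
      rw [List.getElem?_drop, List.getElem?_drop]
      exact h j _ (Or.inr (by omega))
    have key : ∀ u : List (Fin n), u.count a = (u.take b).count a +
        ((u.drop b).take W).count a + (u.drop (b + W)).count a := by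
      intro u
      have h1 : u = u.take b ++ (u.drop b).take W ++ u.drop (b + W) := by
        rw [← List.take_add, List.take_append_drop]
      conv_lhs => rw [h1]
      rw [List.count_append, List.count_append]
    have h1 := key (t j)
    have h2 := key (s j)
    rw [e1, e2, ht a j] at h1
    rw [hs a j] at h2
    omega
  · have : ((t j).drop b).take W = ((s j).drop b).take W := by
      refine List.ext_getElem? fun q => ?_
      rw [List.getElem?_take, List.getElem?_take]
      split_ifs with hq
      · rw [List.getElem?_drop, List.getElem?_drop]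
        refine h j _ ?_
        rcases hw.disjoint j b hb (β j) (hβ j) hbe with h1 | h1
        · exact Or.inl (by omega)
        · exact Or.inr (by omega)
      · rfl
    rw [this]

end H30.PW
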